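import Pool.Agent.H13.DR.Defs2

/-!
# DR Alg
-/

set_option autoImplicit false

open scoped ContDiff Matrix Topology
open Set MeasureTheory Metric Filter

noncomputable section

namespace Pool.Agent.H13.DR

variable {n d m : ℕ}

/-- Negative definite forms are an open set. -/
theorem negDef_stable {k : ℕ} {A : Fin k → Fin k → ℝ} (hA : ∀ c : Fin k → ℝ, c ≠ 0 → ∑ i, ∑ j, c i * c j * A i j < 0) {l : Filter ℝ}
    {B : ℝ → Fin k → Fin k → ℝ} (hB : ∀ i j, Tendsto (fun s => B s i j) l (𝓝 (A i j))) :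
    ∀ᶠ s in l, ∀ c : Fin k → ℝ, c ≠ 0 → ∑ i, ∑ j, c i * c j * B s i j < 0 := by
  -- the maximum of the form on the unit sphere (of the sup norm)
  have hq : Continuous fun c : Fin k → ℝ => ∑ i, ∑ j, c i * c j * A i j := by fun_prop
  obtain ⟨μ, hμ, hm⟩ : ∃ μ : ℝ, 0 < μ ∧ ∀ c ∈ sphere (0 : Fin k → ℝ) 1, ∑ i, ∑ j, c i * c j * A i j ≤ -μ := by
    rcases (sphere (0 : Fin k → ℝ) 1).eq_empty_or_nonempty with h | h
    · exact ⟨1, one_pos, by simp [h]⟩
    · obtain ⟨c₀, hc₀, hmax⟩ := (isCompact_sphere (0 : Fin k → ℝ) 1).exists_isMaxOn h hq.continuousOn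
      have h0 : c₀ ≠ 0 := by
        rintro rfl
        simp at hc₀
      exact ⟨-∑ i, ∑ j, c₀ i * c₀ j * A i j, by linarith [hA c₀ h0], fun c hc => by simpa using hmax hc⟩
  have hev : ∀ᶠ s in l, ∑ i, ∑ j, |B s i j - A i j| < μ := by
    have ht : Tendsto (fun s => ∑ i, ∑ j, |B s i j - A i j|) l (𝓝 (∑ i : Fin k, ∑ j : Fin k, |A i j - A i j|)) :=
      tendsto_finsetSum _ fun i _ => tendsto_finsetSum _ fun j _ => ((hB i j).sub_const _).abs
    simp only [sub_self, abs_zero, Finset.sum_const_zero] at ht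
    exact ht.eventually_lt_const hμ
  filter_upwards [hev] with s hs c hc
  -- on the sphere
  have key : ∀ c ∈ sphere (0 : Fin k → ℝ) 1, ∑ i, ∑ j, c i * c j * B s i j < 0 := by
    intro c hc
    have hc1 : ∀ i, |c i| ≤ 1 := fun i => by
      have := norm_le_pi_norm c i
      rw [mem_sphere_zero_iff_norm.1 hc] at this
      simpa using this
    have h1 : ∑ i, ∑ j, c i * c j * B s i j = ∑ i, ∑ j, c i * c j * A i j + ∑ i, ∑ j, c i * c j * (B s i j - A i j) := by
      rw [← Finset.sum_add_distrib]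
      refine Finset.sum_congr rfl fun i _ => ?_
      rw [← Finset.sum_add_distrib]
      exact Finset.sum_congr rfl fun j _ => by ring
    have h2 : ∑ i, ∑ j, c i * c j * (B s i j - A i j) ≤ ∑ i, ∑ j, |B s i j - A i j| := by
      refine Finset.sum_le_sum fun i _ => Finset.sum_le_sum fun j _ => ?_
      refine (le_abs_self _).trans ?_
      rw [abs_mul, abs_mul]
      have : |c i| * |c j| ≤ 1 := mul_le_one₀ (hc1 i) (abs_nonneg _) (hc1 j)
      nlinarith [abs_nonneg (B s i j - A i j)]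
    rw [h1]
    linarith [hm c hc]
  -- scaling
  have hn : 0 < ‖c‖ := norm_pos_iff.2 hc
  have h3 := key (‖c‖⁻¹ • c) (by rw [mem_sphere_zero_iff_norm, norm_smul, norm_inv, norm_norm, inv_mul_cancel₀ hn.ne'])
  have h4 : ∑ i, ∑ j, (‖c‖⁻¹ • c) i * (‖c‖⁻¹ • c) j * B s i j = (‖c‖⁻¹) ^ 2 * ∑ i, ∑ j, c i * c j * B s i j := by
    rw [Finset.mul_sum]
    refine Finset.sum_congr rfl fun i _ => ?_
    rw [Finset.mul_sum]
    exact Finset.sum_congr rfl fun j _ => by simp only [Pi.smul_apply, smul_eq_mul]; ring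
  rw [h4] at h3
  have h5 : 0 < (‖c‖⁻¹) ^ 2 := by positivity
  exact (mul_neg_iff.1 h3).elim (fun h => h.2) fun h => absurd h.1 (not_lt.2 h5.le)

end Pool.Agent.H13.DR
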