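import Pool.Agent.H13.DR.Defs2

/-!
# DR CutA
-/

set_option autoImplicit false

open scoped ContDiff Matrix Topology
open Set MeasureTheory Metric Filter

noncomputable section

namespace Pool.Agent.H13.DR

variable {n d m : ℕ}

private theorem cutA_isCompact_box (b : Bool) : IsCompact (box d b) := by
  have h1 : IsCompact (Set.pi Set.univ (fun _ : Fin (d + 3) => Icc (-1 : ℝ) 1)) :=
    isCompact_univ_pi fun _ => isCompact_Icc
  have h2 : box d b = Set.pi Set.univ (fun _ : Fin (d + 3) => Icc (-1 : ℝ) 1) ∩ {y | b = true → 0 ≤ y 0} := by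
    ext y
    simp only [box, Set.mem_ofPred_eq, Set.mem_inter_iff, Set.mem_pi, Set.mem_univ, true_implies, Set.mem_Icc, abs_le]
  rw [h2]
  refine h1.inter_right ?_
  by_cases hb : b = true
  · simp only [hb, true_implies]
    exact isClosed_le continuous_const (continuous_apply 0)
  · have : {y : Pt (d + 3) | b = true → 0 ≤ y 0} = Set.univ := by
      ext y
      simp [hb]
    rw [this]
    exact isClosed_univ

private theorem cutA_ctr_open (b : Bool) : ctr d ∈ openBox d b := by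
  refine ⟨fun a => ?_, fun _ => ?_⟩
  · unfold ctr
    by_cases h : a = 0
    · subst h
      rw [Pi.single_eq_same, abs_of_pos (by norm_num)]
      norm_num
    · rw [Pi.single_eq_of_ne h]
      simp
  · unfold ctr
    rw [Pi.single_eq_same]
    norm_num

private theorem cutA_open_box (b : Bool) : openBox d b ⊆ box d b := fun _ hy => ⟨fun a => (hy.1 a).le, hy.2⟩

/-- The centre is far from the other charts and from the boundary. -/
theorem near_chart (M : Mfd d m) {i₀ : Fin M.r} (h₀ : ∀ j, i₀ ≤ j) : ∃ ε : ℝ, 0 < ε ∧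
    (∀ i, i ≠ i₀ → ∀ y ∈ M.part i, ε ≤ dist (M.φ i y) (M.φ i₀ (ctr d))) ∧ ∀ x ∈ M.bdry, ε ≤ dist x (M.φ i₀ (ctr d)) := by
  obtain ⟨O, hO, hOe⟩ := M.isOpen i₀
  have hx : M.φ i₀ (ctr d) ∈ O := by
    have h1 : M.φ i₀ (ctr d) ∈ M.φ i₀ '' openBox d (M.bd i₀) := ⟨_, cutA_ctr_open _, rfl⟩
    rw [hOe] at h1
    exact h1.2
  obtain ⟨ε1, he1, hb1⟩ := Metric.isOpen_iff.1 hO _ hx
  have hcl : IsClosed M.bdry := by
    have h2 : M.bdry = ⋃ i : Fin M.r, M.φ i '' (box d (M.bd i) ∩ {y | M.bd i = true ∧ y 0 = 0}) := by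
      ext x
      simp only [Mfd.bdry, Set.mem_ofPred_eq, Set.mem_iUnion, Set.mem_image, Set.mem_inter_iff]
      constructor
      · rintro ⟨i, y, h1, h2, h3, h4⟩
        exact ⟨i, y, ⟨h1, h2, h3⟩, h4⟩
      · rintro ⟨i, y, ⟨h1, h2, h3⟩, h4⟩
        exact ⟨i, y, h1, h2, h3, h4⟩
    rw [h2]
    refine isClosed_iUnion_of_finite fun i => ?_
    refine ((cutA_isCompact_box _).inter_right ?_).image (M.smooth i).continuous |>.isClosed
    by_cases hb : M.bd i = true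
    · simp only [hb, true_and]
      exact isClosed_eq (continuous_apply 0) continuous_const
    · simp [hb]
  have hnb : M.φ i₀ (ctr d) ∈ M.bdryᶜ := by
    rintro ⟨i, y, h1, h2, h3, h4⟩
    have h5 := (M.bdry_iff i i₀ y h1 (ctr d) (cutA_open_box _ (cutA_ctr_open _)) h4).1 ⟨h2, h3⟩
    have h6 : ctr d 0 = 1 / 2 := by unfold ctr; exact Pi.single_eq_same _ _
    rw [h6] at h5
    norm_num at h5
  obtain ⟨ε2, he2, hb2⟩ := Metric.isOpen_iff.1 hcl.isOpen_compl _ hnb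
  refine ⟨min ε1 ε2, lt_min he1 he2, ?_, ?_⟩
  · intro i hi y hy
    refine (min_le_left _ _).trans ?_
    by_contra hlt
    push Not at hlt
    have h3 : M.φ i y ∈ O := hb1 hlt
    have h4 : M.φ i y ∈ M.φ i₀ '' openBox d (M.bd i₀) := by
      rw [hOe]
      exact ⟨Set.mem_iUnion.2 ⟨i, y, hy.1, rfl⟩, h3⟩
    have h5 : i₀ < i := lt_of_le_of_ne (h₀ i) (Ne.symm hi)
    exact hy.2 i₀ h5 (Set.image_mono (cutA_open_box _) h4)
  · intro x hx'
    refine (min_le_right _ _).trans ?_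
    by_contra hlt
    push Not at hlt
    exact hb2 hlt hx'

theorem lower_bound (M : Mfd d m) (i₀ : Fin M.r) : ∃ c : ℝ, 0 < c ∧ ∀ y ∈ box d (M.bd i₀), c * dist y (ctr d) ≤ dist (M.φ i₀ y) (M.φ i₀ (ctr d)) := by
  have hc : ctr d ∈ box d (M.bd i₀) := cutA_open_box _ (cutA_ctr_open _)
  have hd : DifferentiableAt ℝ (M.φ i₀) (ctr d) := (M.smooth i₀).differentiable (by simp) _
  obtain ⟨K, hK, hKa⟩ := (LinearMap.exists_antilipschitzWith (fderiv ℝ (M.φ i₀) (ctr d)).toLinearMap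
    (LinearMap.ker_eq_bot.2 (M.immersion i₀ _ hc)))
  have hK' : (0 : ℝ) < K := hK
  have hev := (hd.hasFDerivAt.isLittleO).def (c := 1 / (2 * K)) (by positivity)
  obtain ⟨C, hC0, hC⟩ : ∃ C : ℝ, 0 < C ∧ ∀ᶠ y in 𝓝 (ctr d), ‖y - ctr d‖ ≤ C * ‖M.φ i₀ y - M.φ i₀ (ctr d)‖ := by
    refine ⟨2 * K, by positivity, ?_⟩
    filter_upwards [hev] with y hy
    have h1 : ‖y - ctr d‖ ≤ K * ‖fderiv ℝ (M.φ i₀) (ctr d) (y - ctr d)‖ := by
      have h2 := hKa.le_mul_dist (y - ctr d) 0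
      simpa [dist_eq_norm] using h2
    have h3 : ‖fderiv ℝ (M.φ i₀) (ctr d) (y - ctr d)‖ ≤ ‖M.φ i₀ y - M.φ i₀ (ctr d)‖ + 1 / (2 * K) * ‖y - ctr d‖ := by
      have h4 : fderiv ℝ (M.φ i₀) (ctr d) (y - ctr d) = (M.φ i₀ y - M.φ i₀ (ctr d)) -
          (M.φ i₀ y - M.φ i₀ (ctr d) - fderiv ℝ (M.φ i₀) (ctr d) (y - ctr d)) := by abel
      rw [h4]
      exact (norm_sub_le _ _).trans (add_le_add le_rfl hy)
    have h5 : (K : ℝ) * (1 / (2 * K) * ‖y - ctr d‖) = ‖y - ctr d‖ / 2 := by field_simp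
    have h6 := mul_le_mul_of_nonneg_left h3 hK'.le
    rw [mul_add, h5] at h6
    linarith
  obtain ⟨ρ, hρ, hρb⟩ := Metric.eventually_nhds_iff.1 hC
  have hcomp : IsCompact (box d (M.bd i₀) ∩ {y | ρ ≤ dist y (ctr d)}) :=
    (cutA_isCompact_box _).inter_right (isClosed_le continuous_const (continuous_id.dist continuous_const))
  have hcont : ContinuousOn (fun y => dist (M.φ i₀ y) (M.φ i₀ (ctr d)) / dist y (ctr d)) (box d (M.bd i₀) ∩ {y | ρ ≤ dist y (ctr d)}) := by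
    refine ContinuousOn.div ?_ ?_ ?_
    · exact ((M.smooth i₀).continuous.dist continuous_const).continuousOn
    · exact (continuous_id.dist continuous_const).continuousOn
    · intro y hy
      exact (lt_of_lt_of_le hρ hy.2).ne'
  obtain ⟨c2, hc2, hc2b⟩ : ∃ c2 : ℝ, 0 < c2 ∧ ∀ y ∈ box d (M.bd i₀) ∩ {y | ρ ≤ dist y (ctr d)},
      c2 ≤ dist (M.φ i₀ y) (M.φ i₀ (ctr d)) / dist y (ctr d) := by
    rcases (box d (M.bd i₀) ∩ {y | ρ ≤ dist y (ctr d)}).eq_empty_or_nonempty with he | hne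
    · refine ⟨1, one_pos, ?_⟩
      rw [he]
      intro y hy
      exact absurd hy (Set.notMem_empty _)
    · obtain ⟨y0, hy0, hmin⟩ := hcomp.exists_isMinOn hne hcont
      refine ⟨_, ?_, fun y hy => hmin hy⟩
      have h1 : 0 < dist y0 (ctr d) := lt_of_lt_of_le hρ hy0.2
      refine div_pos ?_ h1
      rw [dist_pos]
      intro h2
      have h3 := M.inj i₀ hy0.1 hc h2
      rw [h3, dist_self] at h1
      exact lt_irrefl _ h1
  refine ⟨min C⁻¹ c2, lt_min (inv_pos.2 hC0) hc2, ?_⟩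
  intro y hy
  by_cases hyr : dist y (ctr d) < ρ
  · have h1 := hρb hyr
    rw [← dist_eq_norm, ← dist_eq_norm] at h1
    calc min C⁻¹ c2 * dist y (ctr d) ≤ C⁻¹ * dist y (ctr d) := mul_le_mul_of_nonneg_right (min_le_left _ _) dist_nonneg
      _ ≤ C⁻¹ * (C * dist (M.φ i₀ y) (M.φ i₀ (ctr d))) := mul_le_mul_of_nonneg_left h1 (inv_pos.2 hC0).le
      _ = dist (M.φ i₀ y) (M.φ i₀ (ctr d)) := by rw [← mul_assoc, inv_mul_cancel₀ hC0.ne', one_mul]
  · push Not at hyr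
    have h1 := hc2b y ⟨hy, hyr⟩
    have h2 : 0 < dist y (ctr d) := lt_of_lt_of_le hρ hyr
    rw [le_div_iff₀ h2] at h1
    exact (mul_le_mul_of_nonneg_right (min_le_right _ _) dist_nonneg).trans h1

end Pool.Agent.H13.DR
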