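import Pool.Agent.H13.DR.Defs2

/-!
# DR Reg
-/

set_option autoImplicit false

open scoped ContDiff Matrix Topology
open Set MeasureTheory Metric Filter

noncomputable section

namespace Pool.Agent.H13.DR

variable {n d m : ℕ}

private lemma isClosed_box (b : Bool) : IsClosed (box d b) := by
  have h1 : IsClosed {y : Pt (d + 3) | ∀ a, |y a| ≤ 1} := by
    have : {y : Pt (d + 3) | ∀ a, |y a| ≤ 1} = ⋂ a, {y : Pt (d + 3) | |y a| ≤ 1} := by
      ext y
      simp
    rw [this]
    exact isClosed_iInter fun a => isClosed_le ((continuous_apply a).abs) continuous_const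
  have h2 : IsClosed {y : Pt (d + 3) | b = true → 0 ≤ y 0} := by
    cases b
    · simp
    · simp only [forall_const]
      exact isClosed_le continuous_const (continuous_apply 0)
  exact h1.inter h2

theorem isCompact_box (b : Bool) : IsCompact (box d b) := by
  refine IsCompact.of_isClosed_subset (isCompact_Icc (a := (fun _ => -1 : Pt (d + 3)))
    (b := (fun _ => 1 : Pt (d + 3)))) (isClosed_box b) fun y hy => ?_
  exact ⟨fun a => (abs_le.1 (hy.1 a)).1, fun a => (abs_le.1 (hy.1 a)).2⟩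

theorem loc_contDiff {φ : Pt n → Pt m} (hφ : ContDiff ℝ ∞ φ) {G : Pt m → Matrix (Fin m) (Fin m) ℝ} (hG : ∀ a b, ContDiff ℝ ∞ fun x => G x a b)
    (a b : Fin n) : ContDiff ℝ ∞ fun y => loc φ G y a b := by
  have h1 : ∀ (c : Fin n) (i : Fin m), ContDiff ℝ ∞ fun y => fderiv ℝ φ y (Pi.single c 1) i := by
    intro c i
    have h2 : ContDiff ℝ ∞ fun y => fderiv ℝ φ y (Pi.single c 1) :=
      (hφ.fderiv_right (by simp)).clm_apply contDiff_const
    exact (contDiff_pi.1 h2) i
  have h3 : (fun y => loc φ G y a b) = fun y => ∑ i, fderiv ℝ φ y (Pi.single a 1) i *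
      ∑ j, G (φ y) i j * fderiv ℝ φ y (Pi.single b 1) j := by
    funext y
    simp only [loc, Matrix.of_apply, dotProduct, Matrix.mulVec]
  rw [h3]
  refine ContDiff.sum fun i _ => (h1 a i).mul (ContDiff.sum fun j _ => ?_)
  exact ((hG i j).comp hφ).mul (h1 b j)

theorem loc_posDef {M : Mfd d m} {G : Pt m → Matrix (Fin m) (Fin m) ℝ} (hG : IsMetric M G) {i : Fin M.r} {y : Pt (d + 3)} (hy : y ∈ box d (M.bd i)) :
    (loc (M.φ i) G y).PosDef := by
  have hs : (G (M.φ i y)).IsSymm := hG.symm _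
  refine Matrix.PosDef.of_dotProduct_mulVec_pos ?_ ?_
  · ext a b
    simp only [Matrix.conjTranspose_apply, star_trivial, loc, Matrix.of_apply]
    rw [Matrix.dotProduct_mulVec, ← Matrix.mulVec_transpose, hs.eq, dotProduct_comm]
  · intro w hw
    have h1 : fderiv ℝ (M.φ i) y w = ∑ a, w a • fderiv ℝ (M.φ i) y (Pi.single a 1) := by
      conv_lhs => rw [pi_eq_sum_univ' w]
      rw [map_sum]
      refine Finset.sum_congr rfl fun a _ => ?_
      rw [map_smul]
    have h2 := hG.pos i y hy w hw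
    have h3 : star w ⬝ᵥ (loc (M.φ i) G y *ᵥ w) =
        fderiv ℝ (M.φ i) y w ⬝ᵥ (G (M.φ i y) *ᵥ fderiv ℝ (M.φ i) y w) := by
      rw [h1, Matrix.mulVec_sum, dotProduct_sum]
      simp only [sum_dotProduct, star_trivial, Matrix.mulVec_smul, smul_dotProduct,
        dotProduct_smul, smul_eq_mul, Finset.mul_sum]
      rw [Finset.sum_comm]
      change ∑ a, w a * (∑ b, (fderiv ℝ (M.φ i) y (Pi.single a 1) ⬝ᵥ
        (G (M.φ i y) *ᵥ fderiv ℝ (M.φ i) y (Pi.single b 1))) * w b) = _
      simp only [Finset.mul_sum]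
      refine Finset.sum_congr rfl fun a _ => Finset.sum_congr rfl fun b _ => ?_
      ring
    rw [h3]
    exact h2

private lemma contDiff_det {k : ℕ} {A : Pt n → Matrix (Fin k) (Fin k) ℝ}
    (h : ∀ a b, ContDiff ℝ ∞ fun y => A y a b) : ContDiff ℝ ∞ fun y => (A y).det := by
  simp only [Matrix.det_apply]
  refine ContDiff.sum fun σ _ => ?_
  exact (contDiff_prod fun i _ => h _ _).const_smul _

private lemma contDiff_adj {A : Pt n → Matrix (Fin n) (Fin n) ℝ}
    (h : ∀ a b, ContDiff ℝ ∞ fun y => A y a b) (a b : Fin n) :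
    ContDiff ℝ ∞ fun y => (A y).adjugate a b := by
  simp only [Matrix.adjugate_apply]
  refine contDiff_det fun i j => ?_
  by_cases hi : i = b
  · subst hi
    simp only [Matrix.updateRow_self]
    exact contDiff_const
  · simp only [Matrix.updateRow_ne hi]
    exact h i j

private lemma inv_contDiffAt {g : Pt n → Matrix (Fin n) (Fin n) ℝ}
    (hg : ∀ a b, ContDiff ℝ ∞ fun y => g y a b) {y : Pt n} (hy : (g y).det ≠ 0) (a b : Fin n) :
    ContDiffAt ℝ ∞ (fun z => (g z)⁻¹ a b) y := by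
  have h1 : (fun z => (g z)⁻¹ a b) = fun z => ((g z).det)⁻¹ * (g z).adjugate a b := by
    funext z
    rw [Matrix.inv_def, Ring.inverse_eq_inv', Matrix.smul_apply, smul_eq_mul]
  rw [h1]
  exact ((contDiff_det hg).contDiffAt.inv hy).mul (contDiff_adj hg a b).contDiffAt

private lemma pd_contDiffAt {f : Pt n → ℝ} {y : Pt n} (hf : ContDiffAt ℝ ∞ f y) (a : Fin n) :
    ContDiffAt ℝ ∞ (pd a f) y :=
  (hf.fderiv_right (by simp)).clm_apply contDiffAt_const

private lemma christ_contDiffAt {g : Pt n → Matrix (Fin n) (Fin n) ℝ}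
    (hg : ∀ a b, ContDiff ℝ ∞ fun y => g y a b) {y : Pt n} (hy : (g y).det ≠ 0) (k i j : Fin n) :
    ContDiffAt ℝ ∞ (christ g k i j) y := by
  have h1 : christ g k i j = fun y => (1 / 2) * ∑ l, (g y)⁻¹ k l *
      (pd i (fun q => g q j l) y + pd j (fun q => g q i l) y - pd l (fun q => g q i j) y) := rfl
  rw [h1]
  refine contDiffAt_const.mul (ContDiffAt.sum fun l _ => (inv_contDiffAt hg hy k l).mul ?_)
  exact ((pd_contDiffAt (hg j l).contDiffAt i).add (pd_contDiffAt (hg i l).contDiffAt j)).sub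
    (pd_contDiffAt (hg i j).contDiffAt l)

private lemma scal_contDiffAt {g : Pt n → Matrix (Fin n) (Fin n) ℝ}
    (hg : ∀ a b, ContDiff ℝ ∞ fun y => g y a b) {y : Pt n} (hy : (g y).det ≠ 0) :
    ContDiffAt ℝ ∞ (scal g) y := by
  have hc := christ_contDiffAt hg hy
  have h1 : scal g = fun y => ∑ i, ∑ j, (g y)⁻¹ i j * ∑ k, (pd k (christ g k i j) y -
      pd j (christ g k i k) y + ∑ l, (christ g k k l y * christ g l i j y -
        christ g k j l y * christ g l i k y)) := rfl
  rw [h1]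
  refine ContDiffAt.sum fun i _ => ContDiffAt.sum fun j _ => (inv_contDiffAt hg hy i j).mul
    (ContDiffAt.sum fun k _ => ?_)
  refine ((pd_contDiffAt (hc k i j) k).sub (pd_contDiffAt (hc k i k) j)).add
    (ContDiffAt.sum fun l _ => ?_)
  exact ((hc k k l).mul (hc l i j)).sub ((hc k j l).mul (hc l i k))

private lemma meanCurv_contDiffAt {g : Pt (d + 3) → Matrix (Fin (d + 3)) (Fin (d + 3)) ℝ}
    (hg : ∀ a b, ContDiff ℝ ∞ fun y => g y a b) {y : Pt (d + 3)} (hy : (g y).PosDef) :
    ContDiffAt ℝ ∞ (meanCurv g) y := by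
  have hd : (g y).det ≠ 0 := hy.det_pos.ne'
  have hs : ContDiffAt ℝ ∞ (fun z => √(g z).det) y := (contDiff_det hg).contDiffAt.sqrt hd
  have hs0 : √(g y).det ≠ 0 := (Real.sqrt_pos.2 hy.det_pos).ne'
  have hi : 0 < (g y)⁻¹ 0 0 := hy.inv.diag_pos
  have hi0 : √((g y)⁻¹ 0 0) ≠ 0 := (Real.sqrt_pos.2 hi).ne'
  have h1 : meanCurv g = fun y => (√(g y).det)⁻¹ *
      ∑ a, pd a (fun z => √(g z).det * (-(g z)⁻¹ a 0 / √((g z)⁻¹ 0 0))) y := rfl
  rw [h1]
  refine (hs.inv hs0).mul (ContDiffAt.sum fun a _ => pd_contDiffAt ?_ a)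
  exact hs.mul ((inv_contDiffAt hg hd a 0).neg.div ((inv_contDiffAt hg hd 0 0).sqrt hi.ne') hi0)

/-- `g⁻¹` and the scalar curvature are continuous where `g` is invertible. -/
theorem inv_continuousAt {g : Pt n → Matrix (Fin n) (Fin n) ℝ} (hg : ∀ a b, ContDiff ℝ ∞ fun y => g y a b) {y : Pt n} (hy : (g y).det ≠ 0)
    (a b : Fin n) : ContinuousAt (fun z => (g z)⁻¹ a b) y :=
  (inv_contDiffAt hg hy a b).continuousAt

theorem scal_continuousAt {g : Pt n → Matrix (Fin n) (Fin n) ℝ} (hg : ∀ a b, ContDiff ℝ ∞ fun y => g y a b) {y : Pt n} (hy : (g y).det ≠ 0) :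
    ContinuousAt (scal g) y :=
  (scal_contDiffAt hg hy).continuousAt

private lemma dens_continuousAt {g : Pt (d + 3) → Matrix (Fin (d + 3)) (Fin (d + 3)) ℝ}
    (hg : ∀ a b, ContDiff ℝ ∞ fun y => g y a b) {y : Pt (d + 3)} (hy : (g y).PosDef)
    {u v : Pt (d + 3) → ℝ} (hu : ContDiff ℝ ∞ u) (hv : ContDiff ℝ ∞ v) :
    ContinuousAt (dens g u v) y := by
  have hd : (g y).det ≠ 0 := hy.det_pos.ne'
  have h1 : dens g u v = fun y => (∑ a, ∑ b, (g y)⁻¹ a b * pd a u y * pd b v y +
      (d + 1) / (4 * (d + 2)) * scal g y * u y * v y) * √(g y).det := rfl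
  rw [h1]
  refine ContinuousAt.mul (ContinuousAt.add ?_ ?_) ?_
  · refine tendsto_finsetSum _ fun a _ => tendsto_finsetSum _ fun b _ => ?_
    exact ((inv_contDiffAt hg hd a b).continuousAt.mul
      (pd_contDiffAt hu.contDiffAt a).continuousAt).mul
      (pd_contDiffAt hv.contDiffAt b).continuousAt
  · exact ((continuousAt_const.mul (scal_contDiffAt hg hd).continuousAt).mul
      hu.continuous.continuousAt).mul hv.continuous.continuousAt
  · exact ((contDiff_det hg).contDiffAt.sqrt hd).continuousAt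

private lemma bdDens_continuousAt {g : Pt (d + 3) → Matrix (Fin (d + 3)) (Fin (d + 3)) ℝ}
    (hg : ∀ a b, ContDiff ℝ ∞ fun y => g y a b) {y : Pt (d + 3)} (hy : (g y).PosDef)
    {u v : Pt (d + 3) → ℝ} (hu : Continuous u) (hv : Continuous v) :
    ContinuousAt (bdDens g u v) y := by
  have hd : (g y).det ≠ 0 := hy.det_pos.ne'
  have h1 : bdDens g u v = fun y => (d + 1) / (2 * (d + 2)) * meanCurv g y * u y * v y *
      √((g y).det * (g y)⁻¹ 0 0) := rfl
  rw [h1]
  refine ContinuousAt.mul (((continuousAt_const.mul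
    (meanCurv_contDiffAt hg hy).continuousAt).mul hu.continuousAt).mul hv.continuousAt) ?_
  exact ((contDiff_det hg).continuous.continuousAt.mul
    (inv_contDiffAt hg hd 0 0).continuousAt).sqrt

theorem dens_integrableOn {M : Mfd d m} {G : Pt m → Matrix (Fin m) (Fin m) ℝ} (hG : IsMetric M G) (i : Fin M.r) {u v : Pt m → ℝ} (hu : ContDiff ℝ ∞ u)
    (hv : ContDiff ℝ ∞ v) : IntegrableOn (dens (loc (M.φ i) G) (fun q => u (M.φ i q)) (fun q => v (M.φ i q))) (M.part i) := by
  have h1 : ContinuousOn (dens (loc (M.φ i) G) (fun q => u (M.φ i q)) (fun q => v (M.φ i q)))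
      (box d (M.bd i)) := fun y hy =>
    (dens_continuousAt (loc_contDiff (M.smooth i) hG.smooth) (loc_posDef hG hy)
      (hu.comp (M.smooth i)) (hv.comp (M.smooth i))).continuousWithinAt
  exact (h1.integrableOn_compact (isCompact_box _)).mono_set fun y hy => hy.1

private lemma continuous_cons : Continuous fun z : Pt (d + 2) => (Fin.cons 0 z : Pt (d + 3)) := by
  refine continuous_pi fun a => ?_
  refine Fin.cases ?_ (fun j => ?_) a
  · simp only [Fin.cons_zero]
    exact continuous_const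
  · simp only [Fin.cons_succ]
    exact continuous_apply j

private lemma isCompact_slice (b : Bool) :
    IsCompact {z : Pt (d + 2) | (Fin.cons 0 z : Pt (d + 3)) ∈ box d b} := by
  refine IsCompact.of_isClosed_subset (isCompact_Icc (a := (fun _ => -1 : Pt (d + 2)))
    (b := (fun _ => 1 : Pt (d + 2)))) ((isClosed_box b).preimage continuous_cons) fun z hz => ?_
  have h1 : ∀ a, |z a| ≤ 1 := fun a => by
    have := hz.1 a.succ
    rwa [Fin.cons_succ] at this
  exact ⟨fun a => (abs_le.1 (h1 a)).1, fun a => (abs_le.1 (h1 a)).2⟩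

theorem bdDens_integrableOn {M : Mfd d m} {G : Pt m → Matrix (Fin m) (Fin m) ℝ} (hG : IsMetric M G) (i : Fin M.r) {u v : Pt m → ℝ} (hu : ContDiff ℝ ∞ u)
    (hv : ContDiff ℝ ∞ v) :
    IntegrableOn (fun z : Pt (d + 2) => bdDens (loc (M.φ i) G) (fun q => u (M.φ i q)) (fun q => v (M.φ i q)) (Fin.cons 0 z)) (M.bdPart i) := by
  have h1 : ContinuousOn (fun z : Pt (d + 2) => bdDens (loc (M.φ i) G)
      (fun q => u (M.φ i q)) (fun q => v (M.φ i q)) (Fin.cons 0 z))
      {z : Pt (d + 2) | (Fin.cons 0 z : Pt (d + 3)) ∈ box d (M.bd i)} := fun z hz => by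
    have h2 := bdDens_continuousAt (loc_contDiff (M.smooth i) hG.smooth) (loc_posDef hG hz)
      (hu.comp (M.smooth i)).continuous (hv.comp (M.smooth i)).continuous
    exact (ContinuousAt.comp (f := fun z : Pt (d + 2) => (Fin.cons 0 z : Pt (d + 3)))
      h2 continuous_cons.continuousAt).continuousWithinAt
  exact (h1.integrableOn_compact (isCompact_slice _)).mono_set fun z hz => hz.2.1

theorem measurableSet_part (M : Mfd d m) (i : Fin M.r) : MeasurableSet (M.part i) := by
  have h1 : M.part i = box d (M.bd i) ∩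
      ⋂ j, ⋂ (_ : j < i), (M.φ i) ⁻¹' (M.φ j '' box d (M.bd j))ᶜ := by
    ext y
    simp [Mfd.part]
  rw [h1]
  refine (isClosed_box _).measurableSet.inter (MeasurableSet.iInter fun j =>
    MeasurableSet.iInter fun _ => ?_)
  have h2 : IsClosed (M.φ j '' box d (M.bd j)) :=
    ((isCompact_box _).image (M.smooth j).continuous).isClosed
  exact (M.smooth i).continuous.measurable h2.measurableSet.compl

theorem measurableSet_bdPart (M : Mfd d m) (i : Fin M.r) : MeasurableSet (M.bdPart i) := by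
  by_cases h : M.bd i = true
  · have h1 : M.bdPart i = (fun z : Pt (d + 2) => (Fin.cons 0 z : Pt (d + 3))) ⁻¹' M.part i := by
      ext z
      simp [Mfd.bdPart, h]
    rw [h1]
    exact continuous_cons.measurable (measurableSet_part M i)
  · have h1 : M.bdPart i = ∅ := by
      ext z
      simp [Mfd.bdPart, h]
    rw [h1]
    exact MeasurableSet.empty

private lemma pd_sum {k : ℕ} (c : Fin k → ℝ) {U : Fin k → Pt n → ℝ} {y : Pt n}
    (hU : ∀ i, DifferentiableAt ℝ (U i) y) (a : Fin n) :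
    pd a (fun q => ∑ i, c i * U i q) y = ∑ i, c i * pd a (U i) y := by
  unfold pd
  rw [fderiv_fun_sum fun i _ => (hU i).const_mul (c i)]
  simp only [_root_.sum_apply]
  refine Finset.sum_congr rfl fun i _ => ?_
  rw [fderiv_const_mul (hU i)]
  rfl

private lemma dens_sum {k : ℕ} (g : Pt (d + 3) → Matrix (Fin (d + 3)) (Fin (d + 3)) ℝ)
    (c : Fin k → ℝ) {U : Fin k → Pt (d + 3) → ℝ} {y : Pt (d + 3)}
    (hU : ∀ i, DifferentiableAt ℝ (U i) y) :
    dens g (fun q => ∑ i, c i * U i q) (fun q => ∑ i, c i * U i q) y =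
      ∑ i, ∑ j, c i * c j * dens g (U i) (U j) y := by
  unfold dens
  simp only [pd_sum c hU]
  have h1 : ∀ a b : Fin (d + 3), (g y)⁻¹ a b * (∑ i, c i * pd a (U i) y) *
      (∑ j, c j * pd b (U j) y) =
      ∑ i, ∑ j, c i * c j * ((g y)⁻¹ a b * pd a (U i) y * pd b (U j) y) := by
    intro a b
    rw [mul_assoc, Finset.sum_mul_sum, Finset.mul_sum]
    refine Finset.sum_congr rfl fun i _ => ?_
    rw [Finset.mul_sum]
    refine Finset.sum_congr rfl fun j _ => ?_
    ring
  have h2 : (d + 1 : ℝ) / (4 * (d + 2)) * scal g y * (∑ i, c i * U i y) * (∑ j, c j * U j y) =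
      ∑ i, ∑ j, c i * c j * ((d + 1) / (4 * (d + 2)) * scal g y * U i y * U j y) := by
    rw [mul_assoc, Finset.sum_mul_sum, Finset.mul_sum]
    refine Finset.sum_congr rfl fun i _ => ?_
    rw [Finset.mul_sum]
    refine Finset.sum_congr rfl fun j _ => ?_
    ring
  have h3 : (∑ a, ∑ b, (g y)⁻¹ a b * (∑ i, c i * pd a (U i) y) * (∑ j, c j * pd b (U j) y)) =
      ∑ i, ∑ j, c i * c j * ∑ a, ∑ b, (g y)⁻¹ a b * pd a (U i) y * pd b (U j) y := by
    simp only [h1]
    rw [Finset.sum_congr rfl fun a _ => Finset.sum_comm, Finset.sum_comm]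
    refine Finset.sum_congr rfl fun i _ => ?_
    rw [Finset.sum_congr rfl fun a _ => Finset.sum_comm, Finset.sum_comm]
    simp only [Finset.mul_sum]
  rw [h2, h3, ← Finset.sum_add_distrib, Finset.sum_mul]
  refine Finset.sum_congr rfl fun i _ => ?_
  rw [← Finset.sum_add_distrib, Finset.sum_mul]
  refine Finset.sum_congr rfl fun j _ => ?_
  ring

private lemma bdDens_sum {k : ℕ} (g : Pt (d + 3) → Matrix (Fin (d + 3)) (Fin (d + 3)) ℝ)
    (c : Fin k → ℝ) (U : Fin k → Pt (d + 3) → ℝ) (y : Pt (d + 3)) :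
    bdDens g (fun q => ∑ i, c i * U i q) (fun q => ∑ i, c i * U i q) y =
      ∑ i, ∑ j, c i * c j * bdDens g (U i) (U j) y := by
  unfold bdDens
  rw [mul_assoc ((d + 1 : ℝ) / (2 * (d + 2)) * meanCurv g y), Finset.sum_mul_sum, Finset.mul_sum,
    Finset.sum_mul]
  refine Finset.sum_congr rfl fun i _ => ?_
  rw [Finset.mul_sum, Finset.sum_mul]
  refine Finset.sum_congr rfl fun j _ => ?_
  ring

/-- The form is bilinear. -/
theorem form_sum (M : Mfd d m) {G : Pt m → Matrix (Fin m) (Fin m) ℝ} (hG : IsMetric M G) {k : ℕ} {u : Fin k → Pt m → ℝ} (hu : ∀ i, ContDiff ℝ ∞ (u i))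
    (c : Fin k → ℝ) : M.form G (fun x => ∑ i, c i * u i x) (fun x => ∑ i, c i * u i x) = ∑ i, ∑ j, c i * c j * M.form G (u i) (u j) := by
  have hd : ∀ (l : Fin M.r) (y : Pt (d + 3)) (i : Fin k),
      DifferentiableAt ℝ (fun q => u i (M.φ l q)) y := fun l y i =>
    (((hu i).comp (M.smooth l)).differentiable (by simp)).differentiableAt
  have h1 : ∀ l : Fin M.r,
      (∫ y in M.part l, dens (loc (M.φ l) G) (fun q => ∑ i, c i * u i (M.φ l q))
        (fun q => ∑ i, c i * u i (M.φ l q)) y) =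
      ∑ i, ∑ j, c i * c j * ∫ y in M.part l, dens (loc (M.φ l) G) (fun q => u i (M.φ l q))
        (fun q => u j (M.φ l q)) y := by
    intro l
    have e : ∀ y, dens (loc (M.φ l) G) (fun q => ∑ i, c i * u i (M.φ l q))
        (fun q => ∑ i, c i * u i (M.φ l q)) y = ∑ i, ∑ j, c i * c j *
        dens (loc (M.φ l) G) (fun q => u i (M.φ l q)) (fun q => u j (M.φ l q)) y := fun y =>
      dens_sum _ c (hd l y)
    simp only [e]
    rw [integral_finsetSum _ fun i _ => ?_]
    · refine Finset.sum_congr rfl fun i _ => ?_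
      rw [integral_finsetSum _ fun j _ => ?_]
      · refine Finset.sum_congr rfl fun j _ => ?_
        rw [integral_const_mul]
      · exact (dens_integrableOn hG l (hu i) (hu j)).const_mul _
    · exact integrable_finsetSum _ fun j _ => (dens_integrableOn hG l (hu i) (hu j)).const_mul _
  have h2 : ∀ l : Fin M.r,
      (∫ z in M.bdPart l, bdDens (loc (M.φ l) G) (fun q => ∑ i, c i * u i (M.φ l q))
        (fun q => ∑ i, c i * u i (M.φ l q)) (Fin.cons 0 z)) =
      ∑ i, ∑ j, c i * c j * ∫ z in M.bdPart l, bdDens (loc (M.φ l) G) (fun q => u i (M.φ l q))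
        (fun q => u j (M.φ l q)) (Fin.cons 0 z) := by
    intro l
    have e : ∀ z : Pt (d + 2), bdDens (loc (M.φ l) G) (fun q => ∑ i, c i * u i (M.φ l q))
        (fun q => ∑ i, c i * u i (M.φ l q)) (Fin.cons 0 z) = ∑ i, ∑ j, c i * c j *
        bdDens (loc (M.φ l) G) (fun q => u i (M.φ l q)) (fun q => u j (M.φ l q)) (Fin.cons 0 z) :=
      fun z => bdDens_sum _ c (fun i q => u i (M.φ l q)) _
    simp only [e]
    rw [integral_finsetSum _ fun i _ => ?_]
    · refine Finset.sum_congr rfl fun i _ => ?_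
      rw [integral_finsetSum _ fun j _ => ?_]
      · refine Finset.sum_congr rfl fun j _ => ?_
        rw [integral_const_mul]
      · exact (bdDens_integrableOn hG l (hu i) (hu j)).const_mul _
    · exact integrable_finsetSum _ fun j _ => (bdDens_integrableOn hG l (hu i) (hu j)).const_mul _
  unfold Mfd.form
  simp only [h1, h2, Finset.mul_sum, mul_add, Finset.sum_add_distrib]
  congr 1
  · rw [Finset.sum_comm]
    exact Finset.sum_congr rfl fun i _ => Finset.sum_comm
  · rw [Finset.sum_comm]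
    exact Finset.sum_congr rfl fun i _ => Finset.sum_comm

end Pool.Agent.H13.DR
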