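import Pool.Agent.H13.DR.Loc
import Pool.Agent.H13.DR.Reg
import Pool.Agent.H13.DR.CutA

/-!
# DR CutB
-/

set_option autoImplicit false

open scoped ContDiff Matrix Topology
open Set MeasureTheory Metric Filter

noncomputable section

namespace Pool.Agent.H13.DR

variable {n d m : ℕ}

theorem cut_contDiff (x₀ : Pt m) (δ : ℝ) : ContDiff ℝ ∞ (cut x₀ δ) := by
  unfold cut
  refine contDiff_const.sub ?_
  exact (bump m).contDiff.comp ((contDiff_const (c := δ⁻¹)).smul (contDiff_id.sub contDiff_const))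

private theorem cutB_norm {x₀ x : Pt m} {δ : ℝ} (hδ : 0 < δ) : ‖δ⁻¹ • (x - x₀)‖ = dist x x₀ / δ := by
  rw [norm_smul, norm_inv, Real.norm_eq_abs, abs_of_pos hδ, dist_eq_norm, div_eq_inv_mul]

theorem cut_zero {x₀ x : Pt m} {δ : ℝ} (hδ : 0 < δ) (hx : dist x x₀ ≤ δ) : cut x₀ δ x = 0 := by
  unfold cut
  rw [sub_eq_zero]
  symm
  apply ContDiffBump.one_of_mem_closedBall
  rw [mem_closedBall, dist_zero_right, cutB_norm hδ]
  change dist x x₀ / δ ≤ 1
  rw [div_le_one hδ]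
  exact hx

private theorem cutB_one {x₀ x : Pt m} {δ : ℝ} (hδ : 0 < δ) (hx : 2 * δ ≤ dist x x₀) : cut x₀ δ x = 1 := by
  unfold cut
  rw [sub_eq_self]
  apply ContDiffBump.zero_of_le_dist
  rw [dist_zero_right, cutB_norm hδ]
  change 2 ≤ dist x x₀ / δ
  rw [le_div_iff₀ hδ]
  exact hx

private theorem cutB_abs (x₀ x : Pt m) (δ : ℝ) : |cut x₀ δ x| ≤ 1 := by
  unfold cut
  have h1 := (bump m).nonneg (x := δ⁻¹ • (x - x₀))
  have h2 := (bump m).le_one (x := δ⁻¹ • (x - x₀))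
  rw [abs_le]
  constructor <;> linarith

private theorem cutB_near {x₀ : Pt m} {φ : Pt n → Pt m} (hφ : Continuous φ) {δ : ℝ} (hδ : 0 < δ) {y : Pt n}
    (hy : 2 * δ < dist (φ y) x₀) (u : Pt m → ℝ) :
    (fun q => cut x₀ δ (φ q) * u (φ q)) =ᶠ[𝓝 y] fun q => u (φ q) := by
  have h1 : IsOpen {q | 2 * δ < dist (φ q) x₀} := isOpen_lt continuous_const (hφ.dist continuous_const)
  filter_upwards [h1.mem_nhds hy] with q hq
  rw [cutB_one hδ (le_of_lt hq), one_mul]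

private theorem cutB_dens_bound {g : Pt (d + 3) → Matrix (Fin (d + 3)) (Fin (d + 3)) ℝ} {u v : Pt (d + 3) → ℝ} {y : Pt (d + 3)}
    {A S Q P P' R R' : ℝ} (hA : ∀ a b, |(g y)⁻¹ a b| ≤ A) (hS : |scal g y| ≤ S) (hQ : |√(g y).det| ≤ Q)
    (hP : ∀ a, |pd a u y| ≤ P) (hP' : ∀ a, |pd a v y| ≤ P') (hR : |u y| ≤ R) (hR' : |v y| ≤ R') :
    |dens g u v y| ≤ ((d + 3) * ((d + 3) * (A * P * P')) + (d + 1) / (4 * (d + 2)) * S * R * R') * Q := by
  have hA0 : 0 ≤ A := (abs_nonneg _).trans (hA 0 0)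
  have hS0 : 0 ≤ S := (abs_nonneg _).trans hS
  have hQ0 : 0 ≤ Q := (abs_nonneg _).trans hQ
  have hP0 : 0 ≤ P := (abs_nonneg _).trans (hP 0)
  have hP0' : 0 ≤ P' := (abs_nonneg _).trans (hP' 0)
  have hR0 : 0 ≤ R := (abs_nonneg _).trans hR
  have hR0' : 0 ≤ R' := (abs_nonneg _).trans hR'
  unfold dens
  rw [abs_mul]
  refine mul_le_mul ?_ hQ (abs_nonneg _) (by positivity)
  refine (abs_add_le _ _).trans (add_le_add ?_ ?_)
  · refine (Finset.abs_sum_le_sum_abs _ _).trans ?_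
    have h1 : ∀ a ∈ (Finset.univ : Finset (Fin (d + 3))), |∑ b, (g y)⁻¹ a b * pd a u y * pd b v y| ≤ (d + 3) * (A * P * P') := by
      intro a _
      refine (Finset.abs_sum_le_sum_abs _ _).trans ?_
      have h2 : ∀ b ∈ (Finset.univ : Finset (Fin (d + 3))), |(g y)⁻¹ a b * pd a u y * pd b v y| ≤ A * P * P' := by
        intro b _
        rw [abs_mul, abs_mul]
        exact mul_le_mul (mul_le_mul (hA a b) (hP a) (abs_nonneg _) hA0) (hP' b) (abs_nonneg _) (by positivity)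
      refine (Finset.sum_le_sum h2).trans (le_of_eq ?_)
      rw [Finset.sum_const, Finset.card_univ, Fintype.card_fin, nsmul_eq_mul]
      push_cast
      ring
    refine (Finset.sum_le_sum h1).trans (le_of_eq ?_)
    rw [Finset.sum_const, Finset.card_univ, Fintype.card_fin, nsmul_eq_mul]
    push_cast
    ring
  · rw [abs_mul, abs_mul, abs_mul]
    have h3 : |((d : ℝ) + 1) / (4 * (d + 2))| = (d + 1) / (4 * (d + 2)) := abs_of_nonneg (by positivity)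
    rw [h3]
    have h4 : (0 : ℝ) ≤ (d + 1) / (4 * (d + 2)) := by positivity
    exact mul_le_mul (mul_le_mul (mul_le_mul_of_nonneg_left hS h4) hR (abs_nonneg _) (by positivity)) hR' (abs_nonneg _) (by positivity)

private theorem cutB_pd_comp_bound (φ : Pt (d + 3) → Pt m) (hφ : ContDiff ℝ ∞ φ) (x₀ : Pt m) {δ B L P R : ℝ} (hδ : 0 < δ)
    (hB : ∀ x, ‖fderiv ℝ (bump m) x‖ ≤ B) {y : Pt (d + 3)} (hL : ‖fderiv ℝ φ y‖ ≤ L) {u : Pt m → ℝ} (hu : ContDiff ℝ ∞ u)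
    (hP : ∀ a, |pd a (fun q => u (φ q)) y| ≤ P) (hR : |u (φ y)| ≤ R) (a : Fin (d + 3)) :
    |pd a (fun q => cut x₀ δ (φ q) * u (φ q)) y| ≤ P + R * (B * (δ⁻¹ * L)) := by
  have hB0 : 0 ≤ B := (norm_nonneg _).trans (hB 0)
  have hφd : DifferentiableAt ℝ φ y := hφ.differentiable (by simp) y
  have h1 : HasFDerivAt (fun q => δ⁻¹ • (φ q - x₀)) (δ⁻¹ • fderiv ℝ φ y) y := (hφd.hasFDerivAt.sub_const x₀).const_smul δ⁻¹
  have h2 : HasFDerivAt (bump m) (fderiv ℝ (bump m) (δ⁻¹ • (φ y - x₀))) (δ⁻¹ • (φ y - x₀)) :=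
    (((bump m).contDiff (n := 1)).differentiable (by simp) _).hasFDerivAt
  have h3 := h2.comp y h1
  have h4 : HasFDerivAt (fun q => cut x₀ δ (φ q)) (-((fderiv ℝ (bump m) (δ⁻¹ • (φ y - x₀))).comp (δ⁻¹ • fderiv ℝ φ y))) y := by
    unfold cut
    have h5 := h3.const_sub 1
    exact h5
  have h6 : DifferentiableAt ℝ (fun q => u (φ q)) y := (hu.comp hφ).differentiable (by simp) y
  have h7 := h4.mul h6.hasFDerivAt
  have h8 : pd a (fun q => cut x₀ δ (φ q) * u (φ q)) y = cut x₀ δ (φ y) * pd a (fun q => u (φ q)) y +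
      u (φ y) * (-((fderiv ℝ (bump m) (δ⁻¹ • (φ y - x₀))).comp (δ⁻¹ • fderiv ℝ φ y)) (Pi.single a 1)) := by
    unfold pd
    have h7' : fderiv ℝ (fun q => cut x₀ δ (φ q) * u (φ q)) y = _ := HasFDerivAt.fderiv h7
    rw [h7']
    simp [smul_eq_mul]
  rw [h8]
  refine (abs_add_le _ _).trans (add_le_add ?_ ?_)
  · rw [abs_mul]
    calc |cut x₀ δ (φ y)| * |pd a (fun q => u (φ q)) y| ≤ 1 * P :=
          mul_le_mul (cutB_abs _ _ _) (hP a) (abs_nonneg _) zero_le_one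
      _ = P := one_mul _
  · rw [abs_mul]
    refine mul_le_mul hR ?_ (abs_nonneg _) ((abs_nonneg _).trans hR)
    rw [← Real.norm_eq_abs]
    have h9 : ‖(Pi.single a (1 : ℝ) : Pt (d + 3))‖ ≤ 1 := by
      rw [pi_norm_le_iff_of_nonneg zero_le_one]
      intro b
      by_cases hb : b = a
      · subst hb
        rw [Pi.single_eq_same]
        simp
      · rw [Pi.single_eq_of_ne hb]
        simp
    rw [norm_neg]
    refine (ContinuousLinearMap.le_opNorm _ _).trans ?_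
    have h10 : ‖((fderiv ℝ (bump m) (δ⁻¹ • (φ y - x₀))).comp (δ⁻¹ • fderiv ℝ φ y))‖ ≤ B * (δ⁻¹ * L) := by
      refine (ContinuousLinearMap.opNorm_comp_le _ _).trans ?_
      refine mul_le_mul (hB _) ?_ (norm_nonneg _) hB0
      rw [norm_smul, norm_inv, Real.norm_eq_abs, abs_of_pos hδ]
      exact mul_le_mul_of_nonneg_left hL (inv_pos.2 hδ).le
    calc _ ≤ B * (δ⁻¹ * L) * 1 := mul_le_mul h10 h9 (norm_nonneg _) ((norm_nonneg _).trans h10)
      _ = B * (δ⁻¹ * L) := mul_one _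

private theorem cutB_bdd {f : Pt (d + 3) → ℝ} {b : Bool} (hf : ∀ y ∈ box d b, ContinuousAt f y) : ∃ C : ℝ, 0 ≤ C ∧ ∀ y ∈ box d b, |f y| ≤ C := by
  obtain ⟨C, hC⟩ := (isCompact_box b).exists_bound_of_continuousOn (fun y hy => (hf y hy).continuousWithinAt)
  refine ⟨|C|, abs_nonneg _, fun y hy => ?_⟩
  have := hC y hy
  rw [Real.norm_eq_abs] at this
  exact this.trans (le_abs_self _)

private theorem cutB_bdd_fin {ι : Type} [Finite ι] {f : ι → Pt (d + 3) → ℝ} {b : Bool} (hf : ∀ i, ∀ y ∈ box d b, ContinuousAt (f i) y) :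
    ∃ C : ℝ, 0 ≤ C ∧ ∀ i, ∀ y ∈ box d b, |f i y| ≤ C := by
  have := Fintype.ofFinite ι
  choose C hC0 hC using fun i => cutB_bdd (hf i)
  refine ⟨∑ i, C i, Finset.sum_nonneg fun i _ => hC0 i, fun i y hy => (hC i y hy).trans ?_⟩
  exact Finset.single_le_sum (f := C) (fun j _ => hC0 j) (Finset.mem_univ i)

private theorem cutB_main (M : Mfd d m) (i₀ : Fin M.r) {G : Pt m → Matrix (Fin m) (Fin m) ℝ} (hG : IsMetric M G) {u v : Pt m → ℝ}
    (hu : ContDiff ℝ ∞ u) (hv : ContDiff ℝ ∞ v) : ∃ C : ℝ, ∀ δ : ℝ, 0 < δ → δ ≤ 1 →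
    |(∫ y in M.part i₀, dens (loc (M.φ i₀) G) (fun q => cut (M.φ i₀ (ctr d)) δ (M.φ i₀ q) * u (M.φ i₀ q))
      (fun q => cut (M.φ i₀ (ctr d)) δ (M.φ i₀ q) * v (M.φ i₀ q)) y) -
      ∫ y in M.part i₀, dens (loc (M.φ i₀) G) (fun q => u (M.φ i₀ q)) (fun q => v (M.φ i₀ q)) y| ≤ C * δ := by
  set φ := M.φ i₀ with hφ
  set x₀ := M.φ i₀ (ctr d) with hx₀
  set g := loc (M.φ i₀) G with hg
  have hφs : ContDiff ℝ ∞ φ := M.smooth i₀
  have hgs : ∀ a b, ContDiff ℝ ∞ fun y => g y a b := fun a b => loc_contDiff (M.smooth i₀) hG.smooth a b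
  have hdet : ∀ y ∈ box d (M.bd i₀), (g y).det ≠ 0 := fun y hy => (loc_posDef hG hy).det_pos.ne'
  obtain ⟨A, hA0, hA⟩ := cutB_bdd_fin (f := fun (p : Fin (d + 3) × Fin (d + 3)) y => (g y)⁻¹ p.1 p.2) (b := M.bd i₀)
    (fun p y hy => inv_continuousAt hgs (hdet y hy) p.1 p.2)
  obtain ⟨S, hS0, hS⟩ := cutB_bdd (f := scal g) (b := M.bd i₀) (fun y hy => scal_continuousAt hgs (hdet y hy))
  have hgc : Continuous g := continuous_matrix fun a b => (hgs a b).continuous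
  obtain ⟨Q, hQ0, hQ⟩ := cutB_bdd (f := fun y => √(g y).det) (b := M.bd i₀)
    (fun y _ => (Real.continuous_sqrt.comp hgc.matrix_det).continuousAt)
  have hpdc : ∀ {w : Pt m → ℝ}, ContDiff ℝ ∞ w → ∀ a, Continuous (pd a fun q => w (φ q)) := by
    intro w hw a
    unfold pd
    have h1 : ContDiff ℝ ∞ fun q => w (φ q) := hw.comp hφs
    exact (h1.continuous_fderiv (by simp)).clm_apply continuous_const
  obtain ⟨P1, hP10, hP1⟩ := cutB_bdd_fin (f := fun a => pd a fun q => u (φ q)) (b := M.bd i₀) (fun a y _ => (hpdc hu a).continuousAt)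
  obtain ⟨P2, hP20, hP2⟩ := cutB_bdd_fin (f := fun a => pd a fun q => v (φ q)) (b := M.bd i₀) (fun a y _ => (hpdc hv a).continuousAt)
  obtain ⟨R1, hR10, hR1⟩ := cutB_bdd (f := fun y => u (φ y)) (b := M.bd i₀) (fun y _ => (hu.continuous.comp hφs.continuous).continuousAt)
  obtain ⟨R2, hR20, hR2⟩ := cutB_bdd (f := fun y => v (φ y)) (b := M.bd i₀) (fun y _ => (hv.continuous.comp hφs.continuous).continuousAt)
  obtain ⟨L, hL0, hL⟩ := cutB_bdd (f := fun y => ‖fderiv ℝ φ y‖) (b := M.bd i₀)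
    (fun y _ => ((hφs.continuous_fderiv (by simp)).norm).continuousAt)
  have hL' : ∀ y ∈ box d (M.bd i₀), ‖fderiv ℝ φ y‖ ≤ L := fun y hy => (le_abs_self _).trans (hL y hy)
  obtain ⟨B, hB⟩ : ∃ B, ∀ x, ‖fderiv ℝ (bump m) x‖ ≤ B := by
    have h1 : Continuous (fderiv ℝ (bump m)) := ((bump m).contDiff (n := 1)).continuous_fderiv (by simp)
    exact h1.bounded_above_of_compact_support ((bump m).hasCompactSupport.fderiv ℝ)
  have hB0 : 0 ≤ B := (norm_nonneg _).trans (hB 0)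
  obtain ⟨c, hc0, hc⟩ := lower_bound M i₀
  set K1 := P1 + R1 * (B * L) with hK1
  set K2 := P2 + R2 * (B * L) with hK2
  have hK10 : 0 ≤ K1 := by positivity
  have hK20 : 0 ≤ K2 := by positivity
  set T1 := ((d + 3) * ((d + 3) * (A * K1 * K2)) + (d + 1) / (4 * (d + 2)) * S * R1 * R2) * Q with hT1
  set T2 := ((d + 3) * ((d + 3) * (A * P1 * P2)) + (d + 1) / (4 * (d + 2)) * S * R1 * R2) * Q with hT2
  have hT10 : 0 ≤ T1 := by positivity
  have hT20 : 0 ≤ T2 := by positivity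
  refine ⟨(T1 + T2) * (4 / c) ^ (d + 3), ?_⟩
  intro δ hδ hδ1
  have hi1 : 1 ≤ δ⁻¹ := (one_le_inv₀ hδ).2 hδ1
  -- integrability
  have hcu : ContDiff ℝ ∞ fun x => cut x₀ δ x * u x := (cut_contDiff x₀ δ).mul hu
  have hcv : ContDiff ℝ ∞ fun x => cut x₀ δ x * v x := (cut_contDiff x₀ δ).mul hv
  have hI1 := dens_integrableOn hG i₀ hcu hcv
  have hI2 := dens_integrableOn hG i₀ hu hv
  rw [← integral_sub hI1 hI2]
  set D : Pt (d + 3) → ℝ := fun y => dens g (fun q => cut x₀ δ (φ q) * u (φ q)) (fun q => cut x₀ δ (φ q) * v (φ q)) y -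
    dens g (fun q => u (φ q)) (fun q => v (φ q)) y with hD
  change |∫ y in M.part i₀, D y| ≤ _
  have hbound : ∀ y ∈ box d (M.bd i₀), ‖D y‖ ≤ (T1 + T2) * (δ⁻¹ * δ⁻¹) := by
    intro y hy
    have hpb1 : ∀ a, |pd a (fun q => cut x₀ δ (φ q) * u (φ q)) y| ≤ K1 * δ⁻¹ := by
      intro a
      refine (cutB_pd_comp_bound φ hφs x₀ hδ hB (hL' y hy) hu (fun a => hP1 a y hy) (hR1 y hy) a).trans ?_
      have h1 : P1 ≤ P1 * δ⁻¹ := le_mul_of_one_le_right hP10 hi1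
      rw [hK1]
      nlinarith
    have hpb2 : ∀ a, |pd a (fun q => cut x₀ δ (φ q) * v (φ q)) y| ≤ K2 * δ⁻¹ := by
      intro a
      refine (cutB_pd_comp_bound φ hφs x₀ hδ hB (hL' y hy) hv (fun a => hP2 a y hy) (hR2 y hy) a).trans ?_
      have h1 : P2 ≤ P2 * δ⁻¹ := le_mul_of_one_le_right hP20 hi1
      rw [hK2]
      nlinarith
    have hcb1 : |cut x₀ δ (φ y) * u (φ y)| ≤ R1 := by
      rw [abs_mul]
      calc |cut x₀ δ (φ y)| * |u (φ y)| ≤ 1 * R1 := mul_le_mul (cutB_abs _ _ _) (hR1 y hy) (abs_nonneg _) zero_le_one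
        _ = R1 := one_mul _
    have hcb2 : |cut x₀ δ (φ y) * v (φ y)| ≤ R2 := by
      rw [abs_mul]
      calc |cut x₀ δ (φ y)| * |v (φ y)| ≤ 1 * R2 := mul_le_mul (cutB_abs _ _ _) (hR2 y hy) (abs_nonneg _) zero_le_one
        _ = R2 := one_mul _
    have e1 := cutB_dens_bound (g := g) (y := y) (fun a b => hA (a, b) y hy) (hS y hy) (hQ y hy) hpb1 hpb2 hcb1 hcb2
    have e2 := cutB_dens_bound (g := g) (y := y) (fun a b => hA (a, b) y hy) (hS y hy) (hQ y hy)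
      (fun a => hP1 a y hy) (fun a => hP2 a y hy) (hR1 y hy) (hR2 y hy)
    have hi2 : 1 ≤ δ⁻¹ * δ⁻¹ := by nlinarith
    have e3 : ((d + 3) * ((d + 3) * (A * (K1 * δ⁻¹) * (K2 * δ⁻¹))) + (d + 1) / (4 * (d + 2)) * S * R1 * R2) * Q ≤ T1 * (δ⁻¹ * δ⁻¹) := by
      rw [hT1]
      have h5 : (d + 1) / (4 * (d + 2)) * S * R1 * R2 * Q ≤ (d + 1) / (4 * (d + 2)) * S * R1 * R2 * Q * (δ⁻¹ * δ⁻¹) :=
        le_mul_of_one_le_right (by positivity) hi2
      calc ((d + 3) * ((d + 3) * (A * (K1 * δ⁻¹) * (K2 * δ⁻¹))) + (d + 1) / (4 * (d + 2)) * S * R1 * R2) * Q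
          = (d + 3) * ((d + 3) * (A * K1 * K2)) * Q * (δ⁻¹ * δ⁻¹) + (d + 1) / (4 * (d + 2)) * S * R1 * R2 * Q := by ring
        _ ≤ (d + 3) * ((d + 3) * (A * K1 * K2)) * Q * (δ⁻¹ * δ⁻¹) + (d + 1) / (4 * (d + 2)) * S * R1 * R2 * Q * (δ⁻¹ * δ⁻¹) :=
            add_le_add le_rfl h5
        _ = _ := by ring
    have e4 : T2 ≤ T2 * (δ⁻¹ * δ⁻¹) := le_mul_of_one_le_right hT20 hi2
    rw [Real.norm_eq_abs]
    calc |D y| ≤ _ := abs_sub _ _
      _ ≤ T1 * (δ⁻¹ * δ⁻¹) + T2 * (δ⁻¹ * δ⁻¹) := add_le_add (e1.trans e3) (e2.trans e4)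
      _ = _ := by ring
  set Z := closedBall (ctr d) (2 * δ / c) with hZ
  have hzero : ∀ y ∈ M.part i₀ \ (M.part i₀ ∩ Z), D y = 0 := by
    rintro y ⟨hy1, hy2⟩
    have hy3 : 2 * δ / c < dist y (ctr d) := by
      by_contra h
      push Not at h
      exact hy2 ⟨hy1, h⟩
    have hy4 : 2 * δ < dist (φ y) x₀ := by
      refine lt_of_lt_of_le ?_ (hc y hy1.1)
      rw [div_lt_iff₀ hc0] at hy3
      linarith
    rw [hD]
    simp only
    rw [sub_eq_zero]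
    exact dens_congr (EventuallyEq.refl _ _) (cutB_near hφs.continuous hδ hy4 u) (cutB_near hφs.continuous hδ hy4 v)
  have hmeas : MeasurableSet (M.part i₀) := measurableSet_part M i₀
  have heq : ∫ y in M.part i₀, D y = ∫ y in M.part i₀ ∩ Z, D y :=
    setIntegral_eq_of_subset_of_forall_sdiff_eq_zero hmeas Set.inter_subset_left hzero
  rw [heq, ← Real.norm_eq_abs]
  have hvol : volume Z = ENNReal.ofReal ((2 * (2 * δ / c)) ^ (d + 3)) := by
    rw [hZ, Real.volume_pi_closedBall _ (by positivity), Fintype.card_fin]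
  have hfin : volume (M.part i₀ ∩ Z) < ⊤ := by
    refine lt_of_le_of_lt (measure_mono Set.inter_subset_right) ?_
    rw [hvol]
    exact ENNReal.ofReal_lt_top
  refine (norm_setIntegral_le_of_norm_le_const hfin (fun y hy => hbound y hy.1.1)).trans ?_
  have hreal : volume.real (M.part i₀ ∩ Z) ≤ (2 * (2 * δ / c)) ^ (d + 3) := by
    have h1 : volume.real (M.part i₀ ∩ Z) ≤ volume.real Z := measureReal_mono Set.inter_subset_right (by rw [hvol]; exact ENNReal.ofReal_ne_top)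
    refine h1.trans (le_of_eq ?_)
    unfold Measure.real
    rw [hvol, ENNReal.toReal_ofReal (by positivity)]
  have hT0 : 0 ≤ (T1 + T2) * (δ⁻¹ * δ⁻¹) := by positivity
  refine (mul_le_mul_of_nonneg_left hreal hT0).trans ?_
  have h6 : (2 * (2 * δ / c)) ^ (d + 3) = (4 / c) ^ (d + 3) * δ ^ (d + 3) := by
    rw [← mul_pow]
    congr 1
    ring
  rw [h6]
  have h7 : δ⁻¹ * δ⁻¹ * δ ^ (d + 3) = δ ^ (d + 1) := by
    have : δ ^ (d + 3) = δ ^ (d + 1) * (δ * δ) := by ring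
    rw [this]
    field_simp
  have h8 : δ ^ (d + 1) ≤ δ := by
    calc δ ^ (d + 1) ≤ δ ^ 1 := pow_le_pow_of_le_one hδ.le hδ1 (by omega)
      _ = δ := pow_one _
  calc (T1 + T2) * (δ⁻¹ * δ⁻¹) * ((4 / c) ^ (d + 3) * δ ^ (d + 3)) = (T1 + T2) * (4 / c) ^ (d + 3) * (δ⁻¹ * δ⁻¹ * δ ^ (d + 3)) := by ring
    _ = (T1 + T2) * (4 / c) ^ (d + 3) * δ ^ (d + 1) := by rw [h7]
    _ ≤ (T1 + T2) * (4 / c) ^ (d + 3) * δ := mul_le_mul_of_nonneg_left h8 (by positivity)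

/-- Points have capacity zero. -/
theorem form_cut (M : Mfd d m) {i₀ : Fin M.r} (h₀ : ∀ j, i₀ ≤ j) {G : Pt m → Matrix (Fin m) (Fin m) ℝ} (hG : IsMetric M G) {u v : Pt m → ℝ}
    (hu : ContDiff ℝ ∞ u) (hv : ContDiff ℝ ∞ v) :
    Tendsto (fun δ : ℝ => M.form G (fun x => cut (M.φ i₀ (ctr d)) δ x * u x) (fun x => cut (M.φ i₀ (ctr d)) δ x * v x)) (𝓝[>] 0) (𝓝 (M.form G u v)) := by
  obtain ⟨ε, hε, hfar, hbdry⟩ := near_chart M h₀
  have hpos : ∀ᶠ δ : ℝ in 𝓝[>] 0, 0 < δ := eventually_mem_nhdsWithin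
  have hsmall : ∀ r : ℝ, 0 < r → ∀ᶠ δ : ℝ in 𝓝[>] 0, δ < r := fun r hr =>
    (Filter.Tendsto.mono_left tendsto_id nhdsWithin_le_nhds).eventually_lt_const hr
  unfold Mfd.form
  refine tendsto_finsetSum _ fun i _ => ?_
  refine Tendsto.add ?_ ?_
  · by_cases hi : i = i₀
    · subst hi
      obtain ⟨C, hC⟩ := cutB_main M i hG hu hv
      rw [tendsto_iff_dist_tendsto_zero]
      refine squeeze_zero' (Eventually.of_forall fun _ => dist_nonneg) (g := fun δ => C * δ) ?_ ?_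
      · filter_upwards [hpos, hsmall 1 one_pos] with δ h1 h2
        rw [Real.dist_eq]
        exact hC δ h1 h2.le
      · have h3 : Tendsto (fun δ : ℝ => C * δ) (𝓝 0) (𝓝 (C * 0)) := tendsto_id.const_mul C
        rw [mul_zero] at h3
        exact h3.mono_left nhdsWithin_le_nhds
    · refine tendsto_const_nhds.congr' ?_
      filter_upwards [hpos, hsmall (ε / 2) (by positivity)] with δ h1 h2
      refine setIntegral_congr_fun (measurableSet_part M i) fun y hy => ?_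
      have h3 : 2 * δ < dist (M.φ i y) (M.φ i₀ (ctr d)) := lt_of_lt_of_le (by linarith) (hfar i hi y hy)
      exact (dens_congr (EventuallyEq.refl _ _) (cutB_near (M.smooth i).continuous h1 h3 u)
        (cutB_near (M.smooth i).continuous h1 h3 v)).symm
  · refine tendsto_const_nhds.congr' ?_
    filter_upwards [hpos, hsmall (ε / 2) (by positivity)] with δ h1 h2
    refine setIntegral_congr_fun (measurableSet_bdPart M i) fun z hz => ?_
    have h4 : M.φ i (Fin.cons 0 z) ∈ M.bdry := ⟨i, _, hz.2.1, hz.1, Fin.cons_zero _ _, rfl⟩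
    have h3 : 2 * δ < dist (M.φ i (Fin.cons 0 z)) (M.φ i₀ (ctr d)) := lt_of_lt_of_le (by linarith) (hbdry _ h4)
    exact (bdDens_congr (EventuallyEq.refl _ _) (cutB_near (M.smooth i).continuous h1 h3 u)
      (cutB_near (M.smooth i).continuous h1 h3 v)).symm

end Pool.Agent.H13.DR
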