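import Mathlib

/-!
# Negative eigenvalues of the conformal Laplacian: compact manifolds with boundary, definitions

A compact smooth manifold `M ⊆ ℝ^m` of dimension `d + 3` with boundary is given by finitely many parametrisations by boxes and half boxes.  A Riemannian
metric on `M` is the restriction of a smooth field of symmetric matrices on `ℝ^m`, and smooth functions on `M` are restrictions of smooth functions on `ℝ^m`.
Integrals over `M` are sums of integrals over the parameter sets: a point of `M` is counted in the first chart which contains it.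
-/

set_option autoImplicit false

open scoped ContDiff Matrix
open Set MeasureTheory

noncomputable section

namespace Pool.Agent.H13.DR

/-- Points of `ℝ^n`. -/
abbrev Pt (n : ℕ) := Fin n → ℝ

variable {n d m : ℕ}

/-- The partial derivative `∂_a f`. -/
def pd (a : Fin n) (f : Pt n → ℝ) (y : Pt n) : ℝ := fderiv ℝ f y (Pi.single a 1)

/-- The box `[-1, 1]^n`, `n = d + 3`, and the half box `[0, 1] × [-1, 1]^(n - 1)` (if `b = true`). -/
def box (d : ℕ) (b : Bool) : Set (Pt (d + 3)) := {y | (∀ a, |y a| ≤ 1) ∧ (b = true → 0 ≤ y 0)}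

/-- The box `(-1, 1)^n`, and the half box `[0, 1) × (-1, 1)^(n - 1)` (if `b = true`). -/
def openBox (d : ℕ) (b : Bool) : Set (Pt (d + 3)) := {y | (∀ a, |y a| < 1) ∧ (b = true → 0 ≤ y 0)}

/-- A compact smooth manifold `M ⊆ ℝ^m` of dimension `d + 3` with boundary, given by charts. -/
structure Mfd (d m : ℕ) where
  /-- the number of charts -/
  r : ℕ
  /-- `bd i = true` if the chart `i` is a chart at the boundary -/
  bd : Fin r → Bool
  /-- the charts are parametrised by (half) boxes -/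
  φ : Fin r → Pt (d + 3) → Pt m
  smooth : ∀ i, ContDiff ℝ ∞ (φ i)
  inj : ∀ i, InjOn (φ i) (box d (bd i))
  immersion : ∀ i, ∀ y ∈ box d (bd i), Function.Injective (fderiv ℝ (φ i) y)
  /-- `M`, the union of the images of the boxes, is the union of the images of the open boxes -/
  cover : ∀ i, ∀ y ∈ box d (bd i), ∃ j, ∃ y' ∈ openBox d (bd j), φ j y' = φ i y
  /-- the images of the open boxes are open in `M` -/
  isOpen : ∀ i, ∃ O : Set (Pt m), IsOpen O ∧ φ i '' openBox d (bd i) = (⋃ j, φ j '' box d (bd j)) ∩ O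
  /-- a point is a boundary point in one chart if and only if it is a boundary point in all charts -/
  bdry_iff : ∀ i j, ∀ y ∈ box d (bd i), ∀ y' ∈ box d (bd j), φ i y = φ j y' → (bd i = true ∧ y 0 = 0 ↔ bd j = true ∧ y' 0 = 0)

/-- The boundary of `M`. -/
def Mfd.bdry (M : Mfd d m) : Set (Pt m) := {x | ∃ i, ∃ y ∈ box d (M.bd i), M.bd i = true ∧ y 0 = 0 ∧ M.φ i y = x}

/-- `G` is a smooth field of symmetric matrices on `ℝ^m` which is positive definite on the tangent spaces of `M`: a Riemannian metric on `M`. -/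
structure IsMetric (M : Mfd d m) (G : Pt m → Matrix (Fin m) (Fin m) ℝ) : Prop where
  smooth : ∀ a b, ContDiff ℝ ∞ fun x => G x a b
  symm : ∀ x, (G x).IsSymm
  pos : ∀ i, ∀ y ∈ box d (M.bd i), ∀ w : Pt (d + 3), w ≠ 0 → 0 < fderiv ℝ (M.φ i) y w ⬝ᵥ (G (M.φ i y) *ᵥ fderiv ℝ (M.φ i) y w)

/-- The coefficients of the metric `G` in the chart `φ`. -/
def loc (φ : Pt n → Pt m) (G : Pt m → Matrix (Fin m) (Fin m) ℝ) (y : Pt n) : Matrix (Fin n) (Fin n) ℝ :=
  Matrix.of fun a b => fderiv ℝ φ y (Pi.single a 1) ⬝ᵥ (G (φ y) *ᵥ fderiv ℝ φ y (Pi.single b 1))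

/-- Christoffel symbols `Γ^k_{ij}`. -/
def christ (g : Pt n → Matrix (Fin n) (Fin n) ℝ) (k i j : Fin n) (y : Pt n) : ℝ :=
  (1 / 2) * ∑ l, (g y)⁻¹ k l * (pd i (fun q => g q j l) y + pd j (fun q => g q i l) y - pd l (fun q => g q i j) y)

/-- Scalar curvature. -/
def scal (g : Pt n → Matrix (Fin n) (Fin n) ℝ) (y : Pt n) : ℝ :=
  ∑ i, ∑ j, (g y)⁻¹ i j * ∑ k, (pd k (christ g k i j) y - pd j (christ g k i k) y +
    ∑ l, (christ g k k l y * christ g l i j y - christ g k j l y * christ g l i k y))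

/-- The density of `⟨∇u, ∇v⟩ + (n - 2) / (4 (n - 1)) R u v`, `n = d + 3`. -/
def dens (g : Pt (d + 3) → Matrix (Fin (d + 3)) (Fin (d + 3)) ℝ) (u v : Pt (d + 3) → ℝ) (y : Pt (d + 3)) : ℝ :=
  (∑ a, ∑ b, (g y)⁻¹ a b * pd a u y * pd b v y + (d + 1) / (4 * (d + 2)) * scal g y * u y * v y) * √(g y).det

/-- The mean curvature of `{y 0 = 0}`, that is, the trace of the second fundamental form with respect to the unit normal field
`ν = -∇(y 0) / |∇(y 0)|`, which is the divergence of `ν`. -/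
def meanCurv (g : Pt (d + 3) → Matrix (Fin (d + 3)) (Fin (d + 3)) ℝ) (y : Pt (d + 3)) : ℝ :=
  (√(g y).det)⁻¹ * ∑ a, pd a (fun z => √(g z).det * (-(g z)⁻¹ a 0 / √((g z)⁻¹ 0 0))) y

/-- The density of `(n - 2) / (2 (n - 1)) h u v` on `{y 0 = 0}`, `n = d + 3`. -/
def bdDens (g : Pt (d + 3) → Matrix (Fin (d + 3)) (Fin (d + 3)) ℝ) (u v : Pt (d + 3) → ℝ) (y : Pt (d + 3)) : ℝ :=
  (d + 1) / (2 * (d + 2)) * meanCurv g y * u y * v y * √((g y).det * (g y)⁻¹ 0 0)

/-- The points of the chart `i` which are in no chart before. -/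
def Mfd.part (M : Mfd d m) (i : Fin M.r) : Set (Pt (d + 3)) :=
  {y | y ∈ box d (M.bd i) ∧ ∀ j < i, M.φ i y ∉ M.φ j '' box d (M.bd j)}

/-- The boundary points of the chart `i` which are in no chart before. -/
def Mfd.bdPart (M : Mfd d m) (i : Fin M.r) : Set (Pt (d + 2)) :=
  {z | M.bd i = true ∧ (Fin.cons 0 z : Pt (d + 3)) ∈ M.part i}

/-- The form `∫_M ⟨∇u, ∇v⟩ + (n - 2) / (4 (n - 1)) R_g u v + ∫_∂M (n - 2) / (2 (n - 1)) h_g u v`. -/
def Mfd.form (M : Mfd d m) (G : Pt m → Matrix (Fin m) (Fin m) ℝ) (u v : Pt m → ℝ) : ℝ :=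
  ∑ i, ((∫ y in M.part i, dens (loc (M.φ i) G) (fun q => u (M.φ i q)) (fun q => v (M.φ i q)) y) +
    ∫ z in M.bdPart i, bdDens (loc (M.φ i) G) (fun q => u (M.φ i q)) (fun q => v (M.φ i q)) (Fin.cons 0 z))

/-- `N_D ≥ k` (`X = true`) and `N_R ≥ k` (`X = false`): the form is negative definite on a space of dimension `k` of smooth functions (which are `0` on the
boundary if `X = true`). -/
def Mfd.AtLeast (M : Mfd d m) (X : Bool) (G : Pt m → Matrix (Fin m) (Fin m) ℝ) (k : ℕ) : Prop :=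
  ∃ u : Fin k → Pt m → ℝ, (∀ i, ContDiff ℝ ∞ (u i)) ∧ (X = true → ∀ i, ∀ x ∈ M.bdry, u i x = 0) ∧
    ∀ c : Fin k → ℝ, c ≠ 0 → M.form G (fun x => ∑ i, c i * u i x) (fun x => ∑ i, c i * u i x) < 0

/-- A curve of metrics on `M`: all derivatives of the coefficients are continuous functions of the parameter and the point. -/
def Mfd.IsCurve (M : Mfd d m) (γ : ℝ → Pt m → Matrix (Fin m) (Fin m) ℝ) : Prop :=
  (∀ t ∈ Icc (0 : ℝ) 1, IsMetric M (γ t)) ∧
    ∀ (l : ℕ) (a b : Fin m), Continuous fun z : ℝ × Pt m => iteratedFDeriv ℝ l (fun x => γ z.1 x a b) z.2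

end Pool.Agent.H13.DR
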