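import Pool.Agent.H13.DR.Defs

/-!
# DR Defs2: auxiliary definitions
-/

set_option autoImplicit false

open scoped ContDiff Matrix Topology
open Set MeasureTheory Metric Filter

noncomputable section

namespace Pool.Agent.H13.DR

variable {n d m : ℕ}

/-- The centre of the modification, in the first chart. -/
def ctr (d : ℕ) : Pt (d + 3) := Pi.single 0 (1 / 2)

/-- A bump function. -/
def bump (m : ℕ) : ContDiffBump (0 : Pt m) := ⟨1, 2, one_pos, one_lt_two⟩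

/-- Cut-off functions: `0` on the closed ball of radius `δ`, `1` outside the ball of radius `2 δ`. -/
def cut (x₀ : Pt m) (δ : ℝ) (x : Pt m) : ℝ := 1 - bump m (δ⁻¹ • (x - x₀))

/-- The model metric `dy₀² + ℓ² (exp (2 c y₀) dy₁² + exp (-2 c y₀) dy₂² + dy₃² + …)`. -/
def model (d : ℕ) (c ℓ : ℝ) (y : Pt (d + 3)) : Matrix (Fin (d + 3)) (Fin (d + 3)) ℝ :=
  Matrix.diagonal fun a => if a = 0 then 1 else if a = 1 then ℓ ^ 2 * Real.exp (2 * c * y 0) else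
    if a = 2 then ℓ ^ 2 * Real.exp (-(2 * c * y 0)) else ℓ ^ 2

/-- `ψ` is a retraction to the chart `i₀` near its centre. -/
structure IsRetract (M : Mfd d m) (i₀ : Fin M.r) (ψ : Pt m → Pt (d + 3)) (ε ρ : ℝ) : Prop where
  pos : 0 < ε
  pos' : 0 < ρ
  smooth : ContDiffOn ℝ ∞ ψ (ball (M.φ i₀ (ctr d)) ε)
  right : ∀ i, ∀ y ∈ box d (M.bd i), M.φ i y ∈ ball (M.φ i₀ (ctr d)) ε → ψ (M.φ i y) ∈ box d (M.bd i₀) ∧ M.φ i₀ (ψ (M.φ i y)) = M.φ i y
  left : ∀ y ∈ ball (ctr d) ρ, y ∈ box d (M.bd i₀) ∧ M.φ i₀ y ∈ ball (M.φ i₀ (ctr d)) (ε / 2) ∧ ψ (M.φ i₀ y) = y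

end Pool.Agent.H13.DR
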