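import Pool.Agent.H13.DR.Defs2

/-!
# DR ExtA
-/

set_option autoImplicit false

open scoped ContDiff Matrix Topology
open Set MeasureTheory Metric Filter

noncomputable section

namespace Pool.Agent.H13.DR

variable {n d m : ℕ}

private theorem ExtA_box_closed (d : ℕ) (b : Bool) : IsClosed (box d b) := by
  have h1 : IsClosed {y : Pt (d + 3) | ∀ a, |y a| ≤ 1} := by
    rw [Set.ofPred_forall]
    exact isClosed_iInter fun a => isClosed_le (continuous_apply a).abs continuous_const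
  have h2 : IsClosed {y : Pt (d + 3) | b = true → 0 ≤ y 0} := by
    cases b
    · simp
    · simpa using isClosed_le continuous_const (continuous_apply (0 : Fin (d + 3)))
  have e : box d b = {y : Pt (d + 3) | ∀ a, |y a| ≤ 1} ∩ {y : Pt (d + 3) | b = true → 0 ≤ y 0} := by
    ext y
    rfl
  rw [e]
  exact h1.inter h2

private theorem ExtA_box_compact (d : ℕ) (b : Bool) : IsCompact (box d b) := by
  refine (isCompact_closedBall (0 : Pt (d + 3)) 1).of_isClosed_subset (ExtA_box_closed d b) ?_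
  intro y hy
  rw [mem_closedBall, dist_zero_right, pi_norm_le_iff_of_nonneg zero_le_one]
  intro a
  rw [Real.norm_eq_abs]
  exact hy.1 a

private theorem ExtA_ball (d : ℕ) (b : Bool) {y : Pt (d + 3)} (hy : y ∈ ball (ctr d) (1 / 2)) :
    y ∈ openBox d b := by
  rw [mem_ball, dist_eq_norm, pi_norm_lt_iff (by norm_num)] at hy
  have h0 := hy 0
  rw [Pi.sub_apply, Real.norm_eq_abs, abs_lt] at h0
  have e0 : ctr d 0 = 1 / 2 := by simp [ctr]
  rw [e0] at h0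
  refine ⟨fun a => ?_, fun _ => by linarith [h0.1]⟩
  by_cases ha : a = 0
  · subst ha
    rw [abs_lt]
    constructor <;> linarith [h0.1, h0.2]
  · have h1 := hy a
    have e1 : ctr d a = 0 := by simp [ctr, ha]
    rw [Pi.sub_apply, e1, sub_zero, Real.norm_eq_abs] at h1
    linarith

private theorem ExtA_sub (d : ℕ) (b : Bool) : openBox d b ⊆ box d b :=
  fun _ hy => ⟨fun a => (hy.1 a).le, hy.2⟩

/-- A smooth local retraction to the first chart. -/
theorem exists_retract (M : Mfd d m) (i₀ : Fin M.r) {ε : ℝ} (hε : 0 < ε) : ∃ (ψ : Pt m → Pt (d + 3)) (ε' ρ : ℝ), ε' ≤ ε ∧ IsRetract M i₀ ψ ε' ρ := by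
  have hcb : ctr d ∈ openBox d (M.bd i₀) := ExtA_ball d _ (mem_ball_self (by norm_num))
  have hcb' : ctr d ∈ box d (M.bd i₀) := ExtA_sub d _ hcb
  -- the left inverse
  obtain ⟨g, hg⟩ := LinearMap.exists_leftInverse_of_injective
    ((fderiv ℝ (M.φ i₀) (ctr d)) : Pt (d + 3) →ₗ[ℝ] Pt m)
    (LinearMap.ker_eq_bot.2 (M.immersion i₀ _ hcb'))
  obtain ⟨L, hL⟩ : ∃ L : Pt m →L[ℝ] Pt (d + 3), L = LinearMap.toContinuousLinearMap g := ⟨_, rfl⟩
  have hLA : L.comp (fderiv ℝ (M.φ i₀) (ctr d)) = ContinuousLinearMap.id ℝ (Pt (d + 3)) := by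
    ext1 w
    have h1 := congrArg (fun f : Pt (d + 3) →ₗ[ℝ] Pt (d + 3) => f w) hg
    simp only [LinearMap.comp_apply, LinearMap.id_apply] at h1
    rw [hL]
    exact h1
  obtain ⟨F, hF⟩ : ∃ F : Pt (d + 3) → Pt (d + 3), F = fun y => L (M.φ i₀ y) := ⟨_, rfl⟩
  have hFs : ContDiff ℝ ∞ F := by
    rw [hF]
    exact L.contDiff.comp (M.smooth i₀)
  have hφd : ∀ y, HasFDerivAt (M.φ i₀) (fderiv ℝ (M.φ i₀) y) y := fun y =>
    ((M.smooth i₀).differentiable (by simp) y).hasFDerivAt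
  have hFd : HasFDerivAt F ((ContinuousLinearEquiv.refl ℝ (Pt (d + 3)) : Pt (d + 3) ≃L[ℝ] Pt (d + 3)) :
      Pt (d + 3) →L[ℝ] Pt (d + 3)) (ctr d) := by
    have h1 := L.hasFDerivAt.comp (ctr d) (hφd (ctr d))
    rw [hLA] at h1
    rw [hF]
    exact h1
  -- the inverse function theorem
  obtain ⟨e, hes, hec⟩ : ∃ e : OpenPartialHomeomorph (Pt (d + 3)) (Pt (d + 3)), ctr d ∈ e.source ∧ (e : Pt (d + 3) → Pt (d + 3)) = F :=
    ⟨hFs.contDiffAt.toOpenPartialHomeomorph F hFd (by simp), hFs.contDiffAt.mem_toOpenPartialHomeomorph_source hFd (by simp), rfl⟩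
  have hinv : ∀ᶠ y in 𝓝 (ctr d), ∃ A : Pt (d + 3) ≃L[ℝ] Pt (d + 3), (A : Pt (d + 3) →L[ℝ] Pt (d + 3)) = fderiv ℝ F y := by
    have h1 : Continuous (fderiv ℝ F) := hFs.continuous_fderiv (by simp)
    have h2 := ContinuousLinearEquiv.isOpen (𝕜 := ℝ) (E := Pt (d + 3)) (F := Pt (d + 3))
    have h3 := h2.preimage h1
    refine (h3.mem_nhds ?_)
    show fderiv ℝ F (ctr d) ∈ range _
    rw [hFd.fderiv]
    exact ⟨_, rfl⟩
  have hmemT : F (ctr d) ∈ e.target := by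
    rw [← hec]
    exact e.map_source hes
  have hsymm0 : e.symm (F (ctr d)) = ctr d := by
    rw [← hec]
    exact e.left_inv hes
  have hV : ∀ᶠ z in 𝓝 (F (ctr d)), ContDiffAt ℝ ∞ e.symm z := by
    have h1 : Tendsto e.symm (𝓝 (F (ctr d))) (𝓝 (ctr d)) := by
      have := e.continuousAt_symm hmemT
      unfold ContinuousAt at this
      rwa [hsymm0] at this
    filter_upwards [h1.eventually hinv, e.open_target.mem_nhds hmemT] with z hz1 hz2
    obtain ⟨A, hA⟩ := hz1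
    refine e.contDiffAt_symm (f₀' := A) hz2 ?_ ?_
    · rw [hA, hec]
      exact (hFs.differentiable (by simp) _).hasFDerivAt
    · rw [hec]
      exact hFs.contDiffAt
  have hx0 : L (M.φ i₀ (ctr d)) = F (ctr d) := by rw [hF]
  have hW : ∀ᶠ x in 𝓝 (M.φ i₀ (ctr d)), ContDiffAt ℝ ∞ (fun x => e.symm (L x)) x := by
    have h1 : Tendsto L (𝓝 (M.φ i₀ (ctr d))) (𝓝 (F (ctr d))) := by
      have := L.continuous.continuousAt (x := M.φ i₀ (ctr d))
      unfold ContinuousAt at this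
      rwa [hx0] at this
    filter_upwards [h1.eventually hV] with x hx
    exact hx.comp x L.contDiff.contDiffAt
  obtain ⟨ε₁, hε₁, h₁⟩ := Metric.eventually_nhds_iff_ball.1 hW
  obtain ⟨ρ₁, hρ₁, hb₁⟩ := Metric.isOpen_iff.1 e.open_source _ hes
  -- the points of the first chart
  obtain ⟨ε₂, hε₂, h₂⟩ : ∃ ε₂ > 0, ∀ y ∈ box d (M.bd i₀), M.φ i₀ y ∈ ball (M.φ i₀ (ctr d)) ε₂ → y ∈ ball (ctr d) ρ₁ := by
    have hK : IsCompact (box d (M.bd i₀) \ ball (ctr d) ρ₁) := (ExtA_box_compact d _).diff isOpen_ball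
    have hK2 : IsClosed (M.φ i₀ '' (box d (M.bd i₀) \ ball (ctr d) ρ₁)) :=
      (hK.image (M.smooth i₀).continuous).isClosed
    have hn : M.φ i₀ (ctr d) ∈ (M.φ i₀ '' (box d (M.bd i₀) \ ball (ctr d) ρ₁))ᶜ := by
      rintro ⟨y, ⟨hy1, hy2⟩, hy3⟩
      apply hy2
      rw [M.inj i₀ hy1 hcb' hy3]
      exact mem_ball_self hρ₁
    obtain ⟨ε₂, hε₂, h⟩ := Metric.isOpen_iff.1 hK2.isOpen_compl _ hn
    refine ⟨ε₂, hε₂, fun y hy hy2 => ?_⟩
    by_contra hcon
    exact h hy2 ⟨y, ⟨hy, hcon⟩, rfl⟩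
  obtain ⟨O, hO, hOe⟩ := M.isOpen i₀
  have hxO : M.φ i₀ (ctr d) ∈ O := by
    have : M.φ i₀ (ctr d) ∈ M.φ i₀ '' openBox d (M.bd i₀) := ⟨_, hcb, rfl⟩
    rw [hOe] at this
    exact this.2
  obtain ⟨ε₃, hε₃, h₃⟩ := Metric.isOpen_iff.1 hO _ hxO
  obtain ⟨ε', he'⟩ : ∃ ε', ε' = min (min ε ε₁) (min ε₂ ε₃) := ⟨_, rfl⟩
  have hp : 0 < ε' := by
    rw [he']
    exact lt_min (lt_min hε hε₁) (lt_min hε₂ hε₃)
  have le0 : ε' ≤ ε := by rw [he']; exact (min_le_left _ _).trans (min_le_left _ _)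
  have le1 : ε' ≤ ε₁ := by rw [he']; exact (min_le_left _ _).trans (min_le_right _ _)
  have le2 : ε' ≤ ε₂ := by rw [he']; exact (min_le_right _ _).trans (min_le_left _ _)
  have le3 : ε' ≤ ε₃ := by rw [he']; exact (min_le_right _ _).trans (min_le_right _ _)
  obtain ⟨ρ₂, hρ₂, hb₂⟩ := Metric.mem_nhds_iff.1
    ((M.smooth i₀).continuous.continuousAt.preimage_mem_nhds (ball_mem_nhds (M.φ i₀ (ctr d)) (half_pos hp)))
  have key : ∀ y ∈ e.source, e.symm (L (M.φ i₀ y)) = y := by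
    intro y hy
    have h1 : L (M.φ i₀ y) = e y := by rw [hec, hF]
    rw [h1]
    exact e.left_inv hy
  refine ⟨fun x => e.symm (L x), ε', min (1 / 2) (min ρ₁ ρ₂), le0, ?_⟩
  refine
    { pos := hp
      pos' := lt_min (by norm_num) (lt_min hρ₁ hρ₂)
      smooth := fun x hx => (h₁ x (ball_subset_ball le1 hx)).contDiffWithinAt
      right := ?_
      left := ?_ }
  · intro i y hy hx
    have h4 : M.φ i y ∈ M.φ i₀ '' openBox d (M.bd i₀) := by
      rw [hOe]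
      exact ⟨mem_iUnion.2 ⟨i, y, hy, rfl⟩, h₃ (ball_subset_ball le3 hx)⟩
    obtain ⟨y', hy', he⟩ := h4
    have h5 : y' ∈ ball (ctr d) ρ₁ := by
      apply h₂ y' (ExtA_sub d _ hy')
      rw [he]
      exact ball_subset_ball le2 hx
    have h6 := key y' (hb₁ h5)
    rw [he] at h6
    show e.symm (L (M.φ i y)) ∈ box d (M.bd i₀) ∧ M.φ i₀ (e.symm (L (M.φ i y))) = M.φ i y
    rw [h6]
    exact ⟨ExtA_sub d _ hy', he⟩
  · intro y hy
    have h1 : y ∈ ball (ctr d) (1 / 2) := ball_subset_ball (min_le_left _ _) hy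
    have h2 : y ∈ ball (ctr d) ρ₁ := ball_subset_ball ((min_le_right _ _).trans (min_le_left _ _)) hy
    have h3 : y ∈ ball (ctr d) ρ₂ := ball_subset_ball ((min_le_right _ _).trans (min_le_right _ _)) hy
    exact ⟨ExtA_sub d _ (ExtA_ball d _ h1), hb₂ h3, key y (hb₁ h2)⟩

end Pool.Agent.H13.DR
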