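import Pool.Agent.H13.DR.Defs2

/-!
# DR ExtB
-/

set_option autoImplicit false

open scoped ContDiff Matrix Topology
open Set MeasureTheory Metric Filter

noncomputable section

namespace Pool.Agent.H13.DR

variable {n d m : ℕ}

private lemma ExtB_sum (z : Pt m) : z = ∑ a, z a • (Pi.single a (1 : ℝ) : Pt m) := by
  funext i
  rw [Finset.sum_apply]
  simp only [Pi.smul_apply, smul_eq_mul]
  rw [Finset.sum_eq_single i]
  · simp
  · intro b _ hb
    rw [Pi.single_eq_of_ne (Ne.symm hb), mul_zero]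
  · intro h
    exact absurd (Finset.mem_univ i) h

/-- The pulled back form. -/
private lemma ExtB_bil (L : Pt m →L[ℝ] Pt n) (H : Matrix (Fin n) (Fin n) ℝ) (z z' : Pt m) :
    z ⬝ᵥ ((Matrix.of fun a b => L (Pi.single a 1) ⬝ᵥ (H *ᵥ L (Pi.single b 1)) : Matrix (Fin m) (Fin m) ℝ) *ᵥ z') =
      L z ⬝ᵥ (H *ᵥ L z') := by
  have h1 : L z = ∑ a, z a • L (Pi.single a 1) := by
    conv_lhs => rw [ExtB_sum z]
    rw [map_sum]
    exact Finset.sum_congr rfl fun a _ => by rw [map_smul]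
  have h2 : H *ᵥ L z' = ∑ b, z' b • (H *ᵥ L (Pi.single b 1)) := by
    have h3 : L z' = ∑ b, z' b • L (Pi.single b 1) := by
      conv_lhs => rw [ExtB_sum z']
      rw [map_sum]
      exact Finset.sum_congr rfl fun a _ => by rw [map_smul]
    rw [h3, Matrix.mulVec_sum]
    exact Finset.sum_congr rfl fun a _ => by rw [Matrix.mulVec_smul]
  rw [h1, sum_dotProduct]
  unfold dotProduct
  refine Finset.sum_congr rfl fun a _ => ?_
  have h4 : (z a • L (Pi.single a 1)) ⬝ᵥ (H *ᵥ L z') = z a * ∑ b, (L (Pi.single a 1) ⬝ᵥ (H *ᵥ L (Pi.single b 1))) * z' b := by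
    rw [smul_dotProduct, smul_eq_mul, h2, dotProduct_sum]
    congr 1
    refine Finset.sum_congr rfl fun b _ => ?_
    rw [dotProduct_smul, smul_eq_mul, mul_comm]
  have h5 : (∑ i, (z a • L (Pi.single a 1)) i * (H *ᵥ L z') i) = (z a • L (Pi.single a 1)) ⬝ᵥ (H *ᵥ L z') := rfl
  rw [h5, h4]
  rfl

private lemma ExtB_loc (ψ : Pt m → Pt n) (h : Pt n → Matrix (Fin n) (Fin n) ℝ) (x z z' : Pt m) :
    z ⬝ᵥ (loc ψ h x *ᵥ z') = fderiv ℝ ψ x z ⬝ᵥ (h (ψ x) *ᵥ fderiv ℝ ψ x z') :=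
  ExtB_bil (fderiv ℝ ψ x) (h (ψ x)) z z'

/-- The box is convex and has interior points. -/
private lemma ExtB_uniq (d : ℕ) (b : Bool) : UniqueDiffOn ℝ (box d b) := by
  apply uniqueDiffOn_convex
  · intro x hx y hy s t hs ht hst
    refine ⟨fun a => ?_, fun hb => ?_⟩
    · have h1 := abs_le.1 (hx.1 a)
      have h2 := abs_le.1 (hy.1 a)
      simp only [Pi.add_apply, Pi.smul_apply, smul_eq_mul]
      rw [abs_le]
      constructor
      · nlinarith [h1.1, h1.2, h2.1, h2.2]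
      · nlinarith [h1.1, h1.2, h2.1, h2.2]
    · have h1 := hx.2 hb
      have h2 := hy.2 hb
      simp only [Pi.add_apply, Pi.smul_apply, smul_eq_mul]
      positivity
  · refine ⟨ctr d, mem_interior.2 ⟨{y | (∀ a, |y a| < 1) ∧ 0 < y 0}, ?_, ?_, ?_⟩⟩
    · rintro y ⟨h1, h2⟩
      exact ⟨fun a => (h1 a).le, fun _ => h2.le⟩
    · have h1 : IsOpen {y : Pt (d + 3) | ∀ a, |y a| < 1} := by
        rw [Set.ofPred_forall]
        exact isOpen_iInter_of_finite fun a => isOpen_lt (continuous_apply a).abs continuous_const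
      have h2 : IsOpen {y : Pt (d + 3) | 0 < y 0} := isOpen_lt continuous_const (continuous_apply 0)
      exact h1.inter h2
    · refine ⟨fun a => ?_, ?_⟩
      · unfold ctr
        by_cases h : a = 0
        · rw [h, Pi.single_eq_same]
          rw [abs_of_pos (by norm_num)]
          norm_num
        · rw [Pi.single_eq_of_ne h, abs_zero]
          exact one_pos
      · unfold ctr
        rw [Pi.single_eq_same]
        norm_num

/-- A metric can be prescribed near the centre of the first chart. -/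
theorem exists_metric (M : Mfd d m) {i₀ : Fin M.r} {ψ : Pt m → Pt (d + 3)} {ε ρ : ℝ} (hψ : IsRetract M i₀ ψ ε ρ)
    {h : Pt (d + 3) → Matrix (Fin (d + 3)) (Fin (d + 3)) ℝ} (hh : ∀ a b, ContDiff ℝ ∞ fun y => h y a b) (hp : ∀ y, (h y).PosDef)
    {G : Pt m → Matrix (Fin m) (Fin m) ℝ} (hG : IsMetric M G) :
    ∃ G' : Pt m → Matrix (Fin m) (Fin m) ℝ, IsMetric M G' ∧ (∀ x, ε ≤ dist x (M.φ i₀ (ctr d)) → G' x = G x) ∧
      ∀ y ∈ ball (ctr d) ρ, loc (M.φ i₀) G' y = h y := by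
  have hε := hψ.pos
  have hρ := hψ.pos'
  obtain ⟨x₀, hx₀⟩ : ∃ x₀, x₀ = M.φ i₀ (ctr d) := ⟨_, rfl⟩
  have hsm := hψ.smooth
  have hri := hψ.right
  have hle := hψ.left
  rw [← hx₀] at hsm hri hle ⊢
  let χ : ContDiffBump x₀ := ⟨ε / 2, 3 * ε / 4, by positivity, by linarith⟩
  have hχ0 : ∀ x, 3 * ε / 4 ≤ dist x x₀ → χ x = 0 := fun x hx => χ.zero_of_le_dist hx
  have hfar : ∀ x, x ∉ ball x₀ ε → ∀ᶠ z in 𝓝 x, χ z = 0 := by
    intro x hx
    rw [mem_ball, not_lt] at hx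
    have h1 : ∀ᶠ z in 𝓝 x, 3 * ε / 4 < dist z x₀ :=
      (continuous_id.dist continuous_const).continuousAt.eventually_const_lt (by
        simp only [id]
        linarith)
    exact h1.mono fun z hz => hχ0 z hz.le
  have hψd : ∀ x ∈ ball x₀ ε, ContDiffAt ℝ ∞ ψ x := fun x hx =>
    (hsm x hx).contDiffAt (isOpen_ball.mem_nhds hx)
  have hφd : ∀ i y, DifferentiableAt ℝ (M.φ i) y := fun i y =>
    ((M.smooth i).differentiable (by simp)).differentiableAt
  have hsymm : ∀ x, (loc ψ h x).IsSymm := by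
    intro x
    have h1 : (h (ψ x)).IsSymm := by
      have h2 := (hp (ψ x)).1
      unfold Matrix.IsSymm
      have h3 : (h (ψ x))ᴴ = h (ψ x) := h2
      rwa [Matrix.conjTranspose_eq_transpose_of_trivial] at h3
    ext a b
    show fderiv ℝ ψ x (Pi.single b 1) ⬝ᵥ (h (ψ x) *ᵥ fderiv ℝ ψ x (Pi.single a 1)) =
      fderiv ℝ ψ x (Pi.single a 1) ⬝ᵥ (h (ψ x) *ᵥ fderiv ℝ ψ x (Pi.single b 1))
    rw [Matrix.dotProduct_mulVec, dotProduct_comm, ← Matrix.mulVec_transpose, h1.eq]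
  refine ⟨fun x => (1 - χ x) • G x + χ x • loc ψ h x, ⟨?_, ?_, ?_⟩, ?_, ?_⟩
  · -- smoothness
    intro a b
    show ContDiff ℝ ∞ fun x => (1 - χ x) * G x a b + χ x * loc ψ h x a b
    refine ((contDiff_const.sub χ.contDiff).mul (hG.smooth a b)).add ?_
    rw [contDiff_iff_contDiffAt]
    intro x
    by_cases hx : x ∈ ball x₀ ε
    · refine χ.contDiff.contDiffAt.mul ?_
      have h1 : ∀ v : Pt m, ContDiffAt ℝ ∞ (fun x => fderiv ℝ ψ x v) x := by
        intro v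
        have h2 : ContDiffAt ℝ ∞ (fderiv ℝ ψ) x := (hψd x hx).fderiv_right (by simp)
        exact h2.clm_apply contDiffAt_const
      have h3 : ∀ (v : Pt m) (i : Fin (d + 3)), ContDiffAt ℝ ∞ (fun x => fderiv ℝ ψ x v i) x := fun v i =>
        (contDiff_apply ℝ ℝ i).contDiffAt.comp x (h1 v)
      have h4 : ∀ i j, ContDiffAt ℝ ∞ (fun x => h (ψ x) i j) x := fun i j =>
        ((hh i j).contDiffAt (x := ψ x)).comp x (hψd x hx)
      show ContDiffAt ℝ ∞ (fun x => ∑ i, fderiv ℝ ψ x (Pi.single a 1) i *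
        ∑ j, h (ψ x) i j * fderiv ℝ ψ x (Pi.single b 1) j) x
      refine ContDiffAt.sum fun i _ => (h3 _ i).mul (ContDiffAt.sum fun j _ => (h4 i j).mul (h3 _ j))
    · have h1 : (fun x => χ x * loc ψ h x a b) =ᶠ[𝓝 x] fun _ => (0 : ℝ) := by
        filter_upwards [hfar x hx] with z hz
        rw [hz, zero_mul]
      exact contDiffAt_const.congr_of_eventuallyEq h1
  · -- symmetry
    intro x
    exact ((hG.symm x).smul _).add ((hsymm x).smul _)
  · -- positivity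
    intro i y hy w hw
    obtain ⟨z, hz⟩ : ∃ z, z = fderiv ℝ (M.φ i) y w := ⟨_, rfl⟩
    have hGp := hG.pos i y hy w hw
    rw [← hz] at hGp ⊢
    show 0 < z ⬝ᵥ (((1 - χ (M.φ i y)) • G (M.φ i y) + χ (M.φ i y) • loc ψ h (M.φ i y)) *ᵥ z)
    rw [Matrix.add_mulVec, Matrix.smul_mulVec, Matrix.smul_mulVec, dotProduct_add, dotProduct_smul, dotProduct_smul,
      smul_eq_mul, smul_eq_mul, ExtB_loc]
    have hχn : 0 ≤ χ (M.φ i y) := χ.nonneg
    have hχl : χ (M.φ i y) ≤ 1 := χ.le_one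
    by_cases hc : χ (M.φ i y) = 0
    · rw [hc]
      linarith
    · have hb : M.φ i y ∈ ball x₀ ε := by
        by_contra hb
        rw [mem_ball, not_lt] at hb
        exact hc (hχ0 _ (by linarith))
      have hne : fderiv ℝ ψ (M.φ i y) z ≠ 0 := by
        intro h0
        -- the derivative of `φ i₀ ∘ ψ ∘ φ i` along the box
        have hD1 : HasFDerivWithinAt (M.φ i) (fderiv ℝ (M.φ i) y) (box d (M.bd i)) y :=
          (hφd i y).hasFDerivAt.hasFDerivWithinAt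
        have hD2 : HasFDerivAt ψ (fderiv ℝ ψ (M.φ i y)) (M.φ i y) :=
          ((hψd _ hb).differentiableAt (by simp)).hasFDerivAt
        have hD3 : HasFDerivAt (M.φ i₀) (fderiv ℝ (M.φ i₀) (ψ (M.φ i y))) (ψ (M.φ i y)) :=
          (hφd i₀ _).hasFDerivAt
        have hD4 : HasFDerivAt (fun q => M.φ i₀ (ψ (M.φ i q)))
            ((fderiv ℝ (M.φ i₀) (ψ (M.φ i y))).comp ((fderiv ℝ ψ (M.φ i y)).comp (fderiv ℝ (M.φ i) y))) y :=
          hD3.comp y (hD2.comp y (hφd i y).hasFDerivAt)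
        have hev : ∀ᶠ q in 𝓝[box d (M.bd i)] y, M.φ i q = M.φ i₀ (ψ (M.φ i q)) := by
          have h1 : ∀ᶠ q in 𝓝[box d (M.bd i)] y, M.φ i q ∈ ball x₀ ε :=
            ((M.smooth i).continuous.continuousAt.eventually (isOpen_ball.mem_nhds hb)).filter_mono nhdsWithin_le_nhds
          filter_upwards [h1, self_mem_nhdsWithin] with q hq hq'
          exact (hri i q hq' hq).2.symm
        have hD5 : HasFDerivWithinAt (M.φ i)
            ((fderiv ℝ (M.φ i₀) (ψ (M.φ i y))).comp ((fderiv ℝ ψ (M.φ i y)).comp (fderiv ℝ (M.φ i) y)))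
            (box d (M.bd i)) y :=
          hD4.hasFDerivWithinAt.congr_of_eventuallyEq hev (hri i y hy hb).2.symm
        have hD6 := (ExtB_uniq d (M.bd i) y hy).eq hD1 hD5
        have hD7 : z = 0 := by
          rw [hz, hD6]
          show fderiv ℝ (M.φ i₀) (ψ (M.φ i y)) (fderiv ℝ ψ (M.φ i y) (fderiv ℝ (M.φ i) y w)) = 0
          rw [← hz, h0, map_zero]
        have hD8 : w = 0 := M.immersion i y hy (by rw [← hz, hD7, map_zero])
        exact hw hD8
      have h2 : 0 < fderiv ℝ ψ (M.φ i y) z ⬝ᵥ (h (ψ (M.φ i y)) *ᵥ fderiv ℝ ψ (M.φ i y) z) := by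
        have h3 := (hp (ψ (M.φ i y))).dotProduct_mulVec_pos hne
        simpa using h3
      have h4 : 0 < χ (M.φ i y) := lt_of_le_of_ne hχn (Ne.symm hc)
      have h5 := mul_pos h4 h2
      have h6 : 0 ≤ (1 - χ (M.φ i y)) * (z ⬝ᵥ G (M.φ i y) *ᵥ z) := mul_nonneg (by linarith) hGp.le
      linarith
  · intro x hx
    show (1 - χ x) • G x + χ x • loc ψ h x = G x
    rw [hχ0 x (by linarith), sub_zero, one_smul, zero_smul, add_zero]
  · intro y hy
    obtain ⟨h1, h2, h3⟩ := hle y hy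
    have hb : M.φ i₀ y ∈ ball x₀ ε := ball_subset_ball (by linarith) h2
    have hχ1 : χ (M.φ i₀ y) = 1 := χ.one_of_mem_closedBall (ball_subset_closedBall h2)
    have hD2 : HasFDerivAt ψ (fderiv ℝ ψ (M.φ i₀ y)) (M.φ i₀ y) :=
      ((hψd _ hb).differentiableAt (by simp)).hasFDerivAt
    have hD4 : HasFDerivAt (fun q => ψ (M.φ i₀ q)) ((fderiv ℝ ψ (M.φ i₀ y)).comp (fderiv ℝ (M.φ i₀) y)) y :=
      hD2.comp y (hφd i₀ y).hasFDerivAt
    have hev : (fun q => ψ (M.φ i₀ q)) =ᶠ[𝓝 y] fun q => q := by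
      filter_upwards [isOpen_ball.mem_nhds hy] with q hq
      exact (hle q hq).2.2
    have hD5 : HasFDerivAt (fun q => ψ (M.φ i₀ q)) (ContinuousLinearMap.id ℝ (Pt (d + 3))) y :=
      (hasFDerivAt_id y).congr_of_eventuallyEq hev
    have hD6 := hD4.unique hD5
    have hD7 : ∀ w, fderiv ℝ ψ (M.φ i₀ y) (fderiv ℝ (M.φ i₀) y w) = w := fun w => by
      have h4 := DFunLike.congr_fun hD6 w
      exact h4
    ext a b
    show fderiv ℝ (M.φ i₀) y (Pi.single a 1) ⬝ᵥ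
      (((1 - χ (M.φ i₀ y)) • G (M.φ i₀ y) + χ (M.φ i₀ y) • loc ψ h (M.φ i₀ y)) *ᵥ fderiv ℝ (M.φ i₀) y (Pi.single b 1)) = h y a b
    rw [hχ1, sub_self, zero_smul, zero_add, one_smul, ExtB_loc, hD7, hD7, h3]
    simp

end Pool.Agent.H13.DR
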