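import Pool.Agent.H13.DR.Defs2

/-!
# DR ExtC
-/

set_option autoImplicit false

open scoped ContDiff Matrix Topology
open Set MeasureTheory Metric Filter

noncomputable section

namespace Pool.Agent.H13.DR

variable {n d m : ℕ}

/-- A function can be prescribed near the centre of the first chart. -/
theorem exists_fn (M : Mfd d m) {i₀ : Fin M.r} {ψ : Pt m → Pt (d + 3)} {ε ρ : ℝ} (hψ : IsRetract M i₀ ψ ε ρ) {v : Pt (d + 3) → ℝ} (hv : ContDiff ℝ ∞ v)
    (hv0 : ∀ y, y ∉ ball (ctr d) (ρ / 2) → v y = 0) : ∃ u : Pt m → ℝ, ContDiff ℝ ∞ u ∧ (∀ x, ε ≤ dist x (M.φ i₀ (ctr d)) → u x = 0) ∧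
      ∀ y ∈ box d (M.bd i₀), ∀ᶠ q in 𝓝 y, u (M.φ i₀ q) = v q := by
  have hε := hψ.pos
  have hρ := hψ.pos'
  obtain ⟨x₀, hx₀⟩ : ∃ x₀, x₀ = M.φ i₀ (ctr d) := ⟨_, rfl⟩
  have hsm := hψ.smooth
  have hri := hψ.right
  have hle := hψ.left
  rw [← hx₀] at hsm hri hle ⊢
  let χ : ContDiffBump x₀ := ⟨ε / 2, 3 * ε / 4, by positivity, by linarith⟩
  have hχout : χ.rOut = 3 * ε / 4 := rfl
  have hχin : χ.rIn = ε / 2 := rfl
  have hχ0 : ∀ x, 3 * ε / 4 ≤ dist x x₀ → χ x = 0 := fun x hx => χ.zero_of_le_dist hx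
  have hφc : Continuous (M.φ i₀) := (M.smooth i₀).continuous
  -- near a point outside the ball the cut-off function vanishes
  have hfar : ∀ x, x ∉ ball x₀ ε → ∀ᶠ z in 𝓝 x, χ z = 0 := by
    intro x hx
    rw [mem_ball, not_lt] at hx
    have h1 : ∀ᶠ z in 𝓝 x, 3 * ε / 4 < dist z x₀ :=
      (continuous_id.dist continuous_const).continuousAt.eventually_const_lt (by
        simp only [id]
        linarith)
    exact h1.mono fun z hz => hχ0 z hz.le
  refine ⟨fun x => χ x * v (ψ x), ?_, ?_, ?_⟩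
  · rw [contDiff_iff_contDiffAt]
    intro x
    by_cases hx : x ∈ ball x₀ ε
    · have h1 : ContDiffAt ℝ ∞ ψ x := (hsm x hx).contDiffAt (isOpen_ball.mem_nhds hx)
      exact χ.contDiff.contDiffAt.mul (hv.contDiffAt.comp x h1)
    · have h1 : (fun x => χ x * v (ψ x)) =ᶠ[𝓝 x] fun _ => (0 : ℝ) := by
        filter_upwards [hfar x hx] with z hz
        rw [hz, zero_mul]
      exact contDiffAt_const.congr_of_eventuallyEq h1
  · intro x hx
    show χ x * v (ψ x) = 0
    rw [hχ0 x (by linarith), zero_mul]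
  · intro y hy
    by_cases h1 : y ∈ ball (ctr d) ρ
    · filter_upwards [isOpen_ball.mem_nhds h1] with q hq
      obtain ⟨-, h2, h3⟩ := hle q hq
      show χ (M.φ i₀ q) * v (ψ (M.φ i₀ q)) = v q
      rw [h3, χ.one_of_mem_closedBall (ball_subset_closedBall h2), one_mul]
    · -- `v` vanishes near `y`
      have h2 : ρ / 2 < dist y (ctr d) := by
        rw [mem_ball, not_lt] at h1
        linarith
      have hvz : ∀ᶠ q in 𝓝 y, v q = 0 := by
        have h3 : ∀ᶠ q in 𝓝 y, ρ / 2 < dist q (ctr d) :=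
          (continuous_id.dist continuous_const).continuousAt.eventually_const_lt h2
        refine h3.mono fun q hq => hv0 q ?_
        rw [mem_ball, not_lt]
        exact hq.le
      by_cases h3 : M.φ i₀ y ∈ ball x₀ ε
      · obtain ⟨h4, h5⟩ := hri i₀ y hy h3
        have h6 : ψ (M.φ i₀ y) = y := M.inj i₀ h4 hy h5
        have h7 : ContinuousAt (fun q => ψ (M.φ i₀ q)) y := by
          have h8 : ContinuousAt ψ (M.φ i₀ y) :=
            ((hsm _ h3).contDiffAt (isOpen_ball.mem_nhds h3)).continuousAt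
          exact ContinuousAt.comp (f := M.φ i₀) (g := ψ) h8 hφc.continuousAt
        have h9 : Tendsto (fun q => ψ (M.φ i₀ q)) (𝓝 y) (𝓝 y) := by
          have h10 := h7.tendsto
          rw [h6] at h10
          exact h10
        filter_upwards [hvz, h9.eventually hvz] with q hq hq'
        show χ (M.φ i₀ q) * v (ψ (M.φ i₀ q)) = v q
        rw [hq, hq', mul_zero]
      · have h4 := (hφc.continuousAt (x := y)).tendsto.eventually (hfar _ h3)
        filter_upwards [hvz, h4] with q hq hq'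
        show χ (M.φ i₀ q) * v (ψ (M.φ i₀ q)) = v q
        rw [hq, hq', zero_mul]

end Pool.Agent.H13.DR
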