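import Pool.Agent.H13.DR.Scal

/-!
# DR Neg
-/

set_option autoImplicit false

open scoped ContDiff Matrix Topology
open Set MeasureTheory Metric Filter

noncomputable section

namespace Pool.Agent.H13.DR

variable {n d m : ℕ}

theorem neg_det (c : ℝ) {ℓ : ℝ} (hℓ : 0 < ℓ) (y : Pt (d + 3)) : √(model d c ℓ y).det = ℓ ^ (d + 2) := by
  rw [scal_model_eq, Matrix.det_diagonal]
  have h1 : ∏ a : Fin (d + 3), scalG d c ℓ a (y 0) = (ℓ ^ (d + 2)) ^ 2 := by
    unfold scalG
    rw [Finset.prod_mul_distrib, ← Real.exp_sum]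
    have h2 : ∑ a : Fin (d + 3), 2 * scalE d c a * y 0 = 0 := by
      have h3 : ∀ a : Fin (d + 3), 2 * scalE d c a * y 0 = scalE d c a * (2 * y 0) := fun a => by ring
      simp only [h3]
      rw [← Finset.sum_mul, scal_sumE, zero_mul]
    rw [h2, Real.exp_zero, mul_one]
    unfold scalW
    rw [Fin.prod_univ_succ]
    simp only [if_true, one_mul, Fin.succ_ne_zero, if_false, Finset.prod_const, Finset.card_univ, Fintype.card_fin]
    rw [← pow_mul, ← pow_mul]
    congr 1
    ring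
  rw [h1, Real.sqrt_sq (by positivity)]

/-- the energy density -/
theorem neg_dens_eq (c : ℝ) {ℓ : ℝ} (hℓ : 0 < ℓ) (u v : Pt (d + 3) → ℝ) (y : Pt (d + 3)) :
    dens (model d c ℓ) u v y = ℓ ^ (d + 2) * (pd 0 u y * pd 0 v y - ((d + 1) / (2 * (d + 2)) * c ^ 2) * (u y * v y) +
      (ℓ ^ 2)⁻¹ * ∑ a : Fin (d + 2), Real.exp (-(2 * scalE d c a.succ * y 0)) * (pd a.succ u y * pd a.succ v y)) := by
  unfold dens
  rw [neg_det c hℓ, scal_model c hℓ.ne']
  have h1 : ∑ a, ∑ b, (model d c ℓ y)⁻¹ a b * pd a u y * pd b v y = ∑ a, (scalG d c ℓ a (y 0))⁻¹ * pd a u y * pd a v y := by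
    apply Finset.sum_congr rfl
    intro a _
    rw [scal_inv c hℓ.ne', Finset.sum_eq_single a]
    · rw [Matrix.diagonal_apply_eq]
    · intro b _ hb
      rw [Matrix.diagonal_apply_ne _ (Ne.symm hb)]
      ring
    · intro h
      exact absurd (Finset.mem_univ a) h
  rw [h1, Fin.sum_univ_succ, scalG_zero]
  have h2 : ∑ a : Fin (d + 2), (scalG d c ℓ a.succ (y 0))⁻¹ * pd a.succ u y * pd a.succ v y =
      (ℓ ^ 2)⁻¹ * ∑ a : Fin (d + 2), Real.exp (-(2 * scalE d c a.succ * y 0)) * (pd a.succ u y * pd a.succ v y) := by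
    rw [Finset.mul_sum]
    apply Finset.sum_congr rfl
    intro a _
    unfold scalG scalW
    rw [if_neg (Fin.succ_ne_zero a), mul_inv, Real.exp_neg]
    ring
  rw [h2]
  have h3 : ((d : ℝ) + 2) ≠ 0 := by positivity
  generalize (∑ a : Fin (d + 2), Real.exp (-(2 * scalE d c a.succ * y 0)) * (pd a.succ u y * pd a.succ v y)) = Z
  field_simp
  ring

theorem neg_model_contDiff (c ℓ : ℝ) (a b : Fin (d + 3)) : ContDiff ℝ ∞ fun y : Pt (d + 3) => model d c ℓ y a b := by
  by_cases hab : a = b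
  · subst hab
    have h0 : (fun y : Pt (d + 3) => model d c ℓ y a a) = fun y => scalW d ℓ a * Real.exp (2 * scalE d c a * y 0) := by
      funext y
      rw [scal_model_eq, Matrix.diagonal_apply_eq]
      rfl
    rw [h0]
    fun_prop
  · have h0 : (fun y : Pt (d + 3) => model d c ℓ y a b) = fun _ => (0 : ℝ) := by
      funext y
      rw [scal_model_eq, Matrix.diagonal_apply_ne _ hab]
    rw [h0]
    exact contDiff_const

theorem neg_model_posDef (c : ℝ) {ℓ : ℝ} (hℓ : 0 < ℓ) (y : Pt (d + 3)) : (model d c ℓ y).PosDef := by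
  rw [scal_model_eq, Matrix.posDef_diagonal_iff]
  intro a
  unfold scalG scalW
  split_ifs <;> positivity

/-- `pd` of a smooth function with compact support is continuous with compact support. -/
theorem neg_pd_continuous {u : Pt (d + 3) → ℝ} (hu : ContDiff ℝ ∞ u) (a : Fin (d + 3)) : Continuous (pd a u) := by
  unfold pd
  exact (hu.continuous_fderiv (by simp)).clm_apply continuous_const

theorem neg_pd_compact {u : Pt (d + 3) → ℝ} (hu : HasCompactSupport u) (a : Fin (d + 3)) : HasCompactSupport (pd a u) := by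
  have h1 := hu.fderiv (𝕜 := ℝ)
  apply h1.mono
  intro y hy
  rw [Function.mem_support] at hy ⊢
  intro h
  apply hy
  unfold pd
  rw [h]
  rfl

/-- the integral of the energy density -/
theorem neg_integral (c : ℝ) {ℓ : ℝ} (hℓ : 0 < ℓ) {u : Pt (d + 3) → ℝ} (hu : ContDiff ℝ ∞ u) (hc : HasCompactSupport u) :
    ∫ y, dens (model d c ℓ) u u y = ℓ ^ (d + 2) * ((∫ y, pd 0 u y * pd 0 u y) - ((d + 1) / (2 * (d + 2)) * c ^ 2) * (∫ y, u y * u y) +
      (ℓ ^ 2)⁻¹ * ∑ a : Fin (d + 2), ∫ y, Real.exp (-(2 * scalE d c a.succ * y 0)) * (pd a.succ u y * pd a.succ u y)) := by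
  have hi0 : Integrable fun y => pd 0 u y * pd 0 u y :=
    ((neg_pd_continuous hu 0).mul (neg_pd_continuous hu 0)).integrable_of_hasCompactSupport (neg_pd_compact hc 0).mul_right
  have hi1 : Integrable fun y => u y * u y :=
    (hu.continuous.mul hu.continuous).integrable_of_hasCompactSupport hc.mul_right
  have hi2 : ∀ a : Fin (d + 2), Integrable fun y : Pt (d + 3) => Real.exp (-(2 * scalE d c a.succ * y 0)) * (pd a.succ u y * pd a.succ u y) := by
    intro a
    apply Continuous.integrable_of_hasCompactSupport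
    · have := neg_pd_continuous hu a.succ
      fun_prop
    · exact HasCompactSupport.mul_left (neg_pd_compact hc a.succ).mul_right
  simp only [neg_dens_eq c hℓ]
  have hA : Integrable fun y => pd 0 u y * pd 0 u y - ((d + 1) / (2 * (d + 2)) * c ^ 2) * (u y * u y) := hi0.sub (hi1.const_mul _)
  have hB : Integrable fun y : Pt (d + 3) => (ℓ ^ 2)⁻¹ * ∑ a : Fin (d + 2), Real.exp (-(2 * scalE d c a.succ * y 0)) * (pd a.succ u y * pd a.succ u y) :=
    (integrable_finsetSum _ fun a _ => hi2 a).const_mul _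
  rw [integral_const_mul, integral_add hA hB,
    integral_sub hi0 (hi1.const_mul _), integral_const_mul, integral_const_mul, integral_finsetSum _ fun a _ => hi2 a]

theorem neg_offdiag (c : ℝ) {ℓ : ℝ} (hℓ : 0 < ℓ) {u v : Pt (d + 3) → ℝ} (h : Disjoint (tsupport u) (tsupport v)) (y : Pt (d + 3)) :
    dens (model d c ℓ) u v y = 0 := by
  have key : ∀ w : Pt (d + 3) → ℝ, y ∉ tsupport w → w y = 0 ∧ ∀ a, pd a w y = 0 := by
    intro w hw
    have h1 : w =ᶠ[𝓝 y] 0 := notMem_tsupport_iff_eventuallyEq.mp hw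
    refine ⟨h1.eq_of_nhds, fun a => ?_⟩
    unfold pd
    rw [h1.fderiv_eq]
    simp
  rw [neg_dens_eq c hℓ]
  by_cases hy : y ∈ tsupport u
  · have hv := key v (fun hv => Set.disjoint_left.mp h hy hv)
    simp [hv.1, hv.2]
  · have hu := key u hy
    simp [hu.1, hu.2]

/-- A metric and functions with negative energy, on a small ball. -/
theorem exists_model (y₀ : Pt (d + 3)) {ρ : ℝ} (hρ : 0 < ρ) (k : ℕ) :
    ∃ (h : Pt (d + 3) → Matrix (Fin (d + 3)) (Fin (d + 3)) ℝ) (v : Fin k → Pt (d + 3) → ℝ), (∀ a b, ContDiff ℝ ∞ fun y => h y a b) ∧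
      (∀ y, (h y).PosDef) ∧ (∀ i, ContDiff ℝ ∞ (v i)) ∧ (∀ i, ∀ y, y ∉ ball y₀ ρ → v i y = 0) ∧
      ∀ c : Fin k → ℝ, c ≠ 0 → ∑ i, ∑ j, c i * c j * ∫ y, dens h (v i) (v j) y < 0 := by
  have hk : (0 : ℝ) < k + 1 := by positivity
  set r : ℝ := ρ / (8 * (k + 1)) with hr
  have hr0 : 0 < r := by positivity
  have hρr : ρ = 8 * (k + 1) * r := by rw [hr]; field_simp
  let p : Fin k → Pt (d + 3) := fun i => y₀ + Pi.single 0 (4 * r * i)
  let f : (i : Fin k) → ContDiffBump (p i) := fun i => ⟨r / 2, r, by positivity, by linarith⟩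
  have hball : ∀ i, ball (p i) r ⊆ ball y₀ ρ := by
    intro i
    apply ball_subset_ball'
    have h1 : dist (p i) y₀ = 4 * r * i := by
      show dist (y₀ + Pi.single 0 (4 * r * i)) y₀ = _
      rw [dist_self_add_left, Pi.norm_single, Real.norm_eq_abs, abs_of_nonneg (by positivity)]
    have h2 : (i : ℝ) ≤ k := by exact_mod_cast i.2.le
    rw [h1, hρr]
    nlinarith
  have hdisj : ∀ i j, i ≠ j → Disjoint (tsupport (f i)) (tsupport (f j)) := by
    intro i j hij
    rw [(f i).tsupport_eq, (f j).tsupport_eq]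
    apply closedBall_disjoint_closedBall
    show r + r < dist (p i) (p j)
    have h1 : dist (p i) (p j) = |4 * r * i - 4 * r * j| := by
      show dist (y₀ + Pi.single 0 (4 * r * i)) (y₀ + Pi.single 0 (4 * r * j)) = _
      rw [dist_add_left, dist_eq_norm, ← Pi.single_sub, Pi.norm_single, Real.norm_eq_abs]
    have h2 : (1 : ℝ) ≤ |(i : ℝ) - j| := by
      have h3 : ((i : ℕ) : ℤ) - ((j : ℕ) : ℤ) ≠ 0 := by
        intro h
        apply hij
        apply Fin.ext
        omega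
      have h4 := Int.one_le_abs h3
      exact_mod_cast h4
    have h5 : 4 * r * i - 4 * r * j = (4 * r) * (i - j) := by ring
    rw [h1, h5, abs_mul, abs_of_pos (by positivity : 0 < 4 * r)]
    nlinarith
  have hcs : ∀ i, HasCompactSupport (f i : Pt (d + 3) → ℝ) := fun i => (f i).hasCompactSupport
  have hsm : ∀ i, ContDiff ℝ ∞ (f i : Pt (d + 3) → ℝ) := fun i => (f i).contDiff
  have hV : ∀ i, 0 < ∫ y, (f i) y * (f i) y := by
    intro i
    have hint : Integrable fun y => (f i) y * (f i) y :=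
      ((hsm i).continuous.mul (hsm i).continuous).integrable_of_hasCompactSupport (hcs i).mul_right
    rw [integral_pos_iff_support_of_nonneg (fun y => mul_self_nonneg _) hint]
    have h1 : ball (p i) r ⊆ Function.support fun y => (f i) y * (f i) y := by
      intro y hy
      have h2 : y ∈ Function.support (f i : Pt (d + 3) → ℝ) := by
        rw [(f i).support_eq]; exact hy
      exact mul_ne_zero h2 h2
    exact lt_of_lt_of_le (measure_ball_pos volume (p i) hr0) (measure_mono h1)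
  -- choice of `c`
  have hc : ∃ c : ℝ, ∀ i, (∫ y, pd 0 (f i) y * pd 0 (f i) y) - ((d + 1) / (2 * (d + 2)) * c ^ 2) * (∫ y, (f i) y * (f i) y) < 0 := by
    have h1 : ∀ᶠ c : ℝ in atTop, ∀ i, (∫ y, pd 0 (f i) y * pd 0 (f i) y) - ((d + 1) / (2 * (d + 2)) * c ^ 2) * (∫ y, (f i) y * (f i) y) < 0 := by
      rw [eventually_all]
      intro i
      have h2 : Tendsto (fun c : ℝ => c ^ 2 * ((d + 1) / (2 * (d + 2)) * (∫ y, (f i) y * (f i) y))) atTop atTop := by
        apply Tendsto.atTop_mul_const _ (tendsto_pow_atTop two_ne_zero)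
        have := hV i
        positivity
      filter_upwards [h2.eventually_gt_atTop (∫ y, pd 0 (f i) y * pd 0 (f i) y)] with c hc
      have h3 : ((d + 1) / (2 * (d + 2)) * c ^ 2) * (∫ y, (f i) y * (f i) y) = c ^ 2 * ((d + 1) / (2 * (d + 2)) * (∫ y, (f i) y * (f i) y)) := by ring
      rw [h3]
      linarith
    exact h1.exists
  obtain ⟨c, hc⟩ := hc
  -- choice of `ℓ`
  have hl : ∃ ℓ : ℝ, 0 < ℓ ∧ ∀ i, (∫ y, pd 0 (f i) y * pd 0 (f i) y) - ((d + 1) / (2 * (d + 2)) * c ^ 2) * (∫ y, (f i) y * (f i) y) +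
      (ℓ ^ 2)⁻¹ * ∑ a : Fin (d + 2), ∫ y, Real.exp (-(2 * scalE d c a.succ * y 0)) * (pd a.succ (f i) y * pd a.succ (f i) y) < 0 := by
    have h1 : ∀ᶠ ℓ : ℝ in atTop, ∀ i, (∫ y, pd 0 (f i) y * pd 0 (f i) y) - ((d + 1) / (2 * (d + 2)) * c ^ 2) * (∫ y, (f i) y * (f i) y) +
      (ℓ ^ 2)⁻¹ * ∑ a : Fin (d + 2), ∫ y, Real.exp (-(2 * scalE d c a.succ * y 0)) * (pd a.succ (f i) y * pd a.succ (f i) y) < 0 := by
      rw [eventually_all]
      intro i
      have h2 : Tendsto (fun ℓ : ℝ => (∫ y, pd 0 (f i) y * pd 0 (f i) y) - ((d + 1) / (2 * (d + 2)) * c ^ 2) * (∫ y, (f i) y * (f i) y) +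
          (ℓ ^ 2)⁻¹ * ∑ a : Fin (d + 2), ∫ y, Real.exp (-(2 * scalE d c a.succ * y 0)) * (pd a.succ (f i) y * pd a.succ (f i) y)) atTop
          (𝓝 ((∫ y, pd 0 (f i) y * pd 0 (f i) y) - ((d + 1) / (2 * (d + 2)) * c ^ 2) * (∫ y, (f i) y * (f i) y) +
          0 * ∑ a : Fin (d + 2), ∫ y, Real.exp (-(2 * scalE d c a.succ * y 0)) * (pd a.succ (f i) y * pd a.succ (f i) y))) :=
        tendsto_const_nhds.add (((tendsto_pow_atTop two_ne_zero).inv_tendsto_atTop).mul_const _)
      apply h2.eventually_lt_const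
      rw [zero_mul, add_zero]
      exact hc i
    obtain ⟨ℓ, h3, h4⟩ := (h1.and (eventually_gt_atTop 0)).exists
    exact ⟨ℓ, h4, h3⟩
  obtain ⟨ℓ, hℓ, hl⟩ := hl
  refine ⟨model d c ℓ, fun i => f i, neg_model_contDiff c ℓ, neg_model_posDef c hℓ, hsm, ?_, ?_⟩
  · intro i y hy
    by_contra h
    have h2 : y ∈ Function.support (f i : Pt (d + 3) → ℝ) := h
    rw [(f i).support_eq] at h2
    exact hy (hball i h2)
  · intro w hw
    have h1 : ∀ i, ∑ j, w i * w j * ∫ y, dens (model d c ℓ) (f i) (f j) y = w i * w i * ∫ y, dens (model d c ℓ) (f i) (f i) y := by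
      intro i
      rw [Finset.sum_eq_single i]
      · intro j _ hj
        simp only [neg_offdiag c hℓ (hdisj i j (Ne.symm hj))]
        simp
      · intro h
        exact absurd (Finset.mem_univ i) h
    have hneg : ∀ i, ∫ y, dens (model d c ℓ) (f i) (f i) y < 0 := by
      intro i
      rw [neg_integral c hℓ (hsm i) (hcs i)]
      exact mul_neg_of_pos_of_neg (by positivity) (hl i)
    simp only [h1]
    obtain ⟨i₀, hi₀⟩ : ∃ i, w i ≠ 0 := Function.ne_iff.mp hw
    apply Finset.sum_neg'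
    · intro i _
      exact mul_nonpos_of_nonneg_of_nonpos (mul_self_nonneg _) (hneg i).le
    · exact ⟨i₀, Finset.mem_univ _, mul_neg_of_pos_of_neg (mul_self_pos.mpr hi₀) (hneg i₀)⟩

end Pool.Agent.H13.DR
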