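import Pool.Agent.H13.DR.CutB
import Pool.Agent.H13.DR.Alg
import Pool.Agent.H13.DR.ExtA
import Pool.Agent.H13.DR.ExtB
import Pool.Agent.H13.DR.ExtC
import Pool.Agent.H13.DR.Neg

/-!
# DR Fin: the set of metrics with at least `k` negative eigenvalues is path connected
-/

set_option autoImplicit false

open scoped ContDiff Matrix Topology
open Set MeasureTheory Metric Filter

noncomputable section

namespace Pool.Agent.H13.DR

variable {n d m : ℕ}

/-- Combinations of metrics are metrics. -/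
theorem isMetric_comb {M : Mfd d m} {G G' : Pt m → Matrix (Fin m) (Fin m) ℝ} (hG : IsMetric M G) (hG' : IsMetric M G') {s t : ℝ} (hs : 0 ≤ s)
    (ht : 0 ≤ t) (hst : 0 < s + t) : IsMetric M fun x => s • G x + t • G' x where
  smooth a b := by
    simp only [Matrix.add_apply, Matrix.smul_apply, smul_eq_mul]
    exact (contDiff_const.mul (hG.smooth a b)).add (contDiff_const.mul (hG'.smooth a b))
  symm x := ((hG.symm x).smul s).add ((hG'.symm x).smul t)
  pos i y hy w hw := by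
    have h1 := hG.pos i y hy w hw
    have h2 := hG'.pos i y hy w hw
    rw [Matrix.add_mulVec, Matrix.smul_mulVec, Matrix.smul_mulVec, dotProduct_add, dotProduct_smul, dotProduct_smul, smul_eq_mul, smul_eq_mul]
    rcases hs.eq_or_lt with rfl | hs
    · have : 0 < t := by simpa using hst
      nlinarith [mul_pos this h2]
    · nlinarith [mul_nonneg ht h2.le, mul_pos hs h1]

/-- The broken line through four metrics. -/
def line (G : Fin 4 → Pt m → Matrix (Fin m) (Fin m) ℝ) (t : ℝ) (x : Pt m) : Matrix (Fin m) (Fin m) ℝ :=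
  ∑ j : Fin 4, max 0 (1 - |3 * t - ((j : ℕ) : ℝ)|) • G j x

theorem line_zero (G : Fin 4 → Pt m → Matrix (Fin m) (Fin m) ℝ) : line G 0 = G 0 := by
  funext x
  simp only [line, Fin.sum_univ_four]
  norm_num

theorem line_one (G : Fin 4 → Pt m → Matrix (Fin m) (Fin m) ℝ) : line G 1 = G 3 := by
  funext x
  simp only [line, Fin.sum_univ_four]
  norm_num

theorem line_cases (G : Fin 4 → Pt m → Matrix (Fin m) (Fin m) ℝ) {t : ℝ} (ht : t ∈ Icc (0 : ℝ) 1) :
    ∃ i : Fin 3, ∃ s ∈ Icc (0 : ℝ) 1, line G t = fun x => (1 - s) • G i.castSucc x + s • G i.succ x := by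
  rcases le_total t (1 / 3) with h1 | h1
  · refine ⟨0, 3 * t, ⟨by linarith [ht.1], by linarith⟩, ?_⟩
    funext x
    have e0 : max 0 (1 - |3 * t - (((0 : Fin 4) : ℕ) : ℝ)|) = 1 - 3 * t := by
      rw [show (((0 : Fin 4) : ℕ) : ℝ) = 0 by simp, sub_zero, abs_of_nonneg (by linarith [ht.1]), max_eq_right (by linarith)]
    have e1 : max 0 (1 - |3 * t - (((1 : Fin 4) : ℕ) : ℝ)|) = 3 * t := by
      rw [show (((1 : Fin 4) : ℕ) : ℝ) = 1 by simp, abs_of_nonpos (by linarith), max_eq_right (by linarith [ht.1])]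
      ring
    have e2 : max 0 (1 - |3 * t - (((2 : Fin 4) : ℕ) : ℝ)|) = 0 := by
      rw [show (((2 : Fin 4) : ℕ) : ℝ) = 2 by simp, abs_of_nonpos (by linarith), max_eq_left (by linarith)]
    have e3 : max 0 (1 - |3 * t - (((3 : Fin 4) : ℕ) : ℝ)|) = 0 := by
      rw [show (((3 : Fin 4) : ℕ) : ℝ) = 3 by simp, abs_of_nonpos (by linarith), max_eq_left (by linarith)]
    rw [line, Fin.sum_univ_four, e0, e1, e2, e3, zero_smul, zero_smul, add_zero, add_zero]
    rfl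
  rcases le_total t (2 / 3) with h2 | h2
  · refine ⟨1, 3 * t - 1, ⟨by linarith, by linarith⟩, ?_⟩
    funext x
    have e0 : max 0 (1 - |3 * t - (((0 : Fin 4) : ℕ) : ℝ)|) = 0 := by
      rw [show (((0 : Fin 4) : ℕ) : ℝ) = 0 by simp, sub_zero, abs_of_nonneg (by linarith), max_eq_left (by linarith)]
    have e1 : max 0 (1 - |3 * t - (((1 : Fin 4) : ℕ) : ℝ)|) = 1 - (3 * t - 1) := by
      rw [show (((1 : Fin 4) : ℕ) : ℝ) = 1 by simp, abs_of_nonneg (by linarith), max_eq_right (by linarith)]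
    have e2 : max 0 (1 - |3 * t - (((2 : Fin 4) : ℕ) : ℝ)|) = 3 * t - 1 := by
      rw [show (((2 : Fin 4) : ℕ) : ℝ) = 2 by simp, abs_of_nonpos (by linarith), max_eq_right (by linarith)]
      ring
    have e3 : max 0 (1 - |3 * t - (((3 : Fin 4) : ℕ) : ℝ)|) = 0 := by
      rw [show (((3 : Fin 4) : ℕ) : ℝ) = 3 by simp, abs_of_nonpos (by linarith), max_eq_left (by linarith)]
    rw [line, Fin.sum_univ_four, e0, e1, e2, e3, zero_smul, zero_smul, add_zero, zero_add]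
    rfl
  · refine ⟨2, 3 * t - 2, ⟨by linarith, by linarith [ht.2]⟩, ?_⟩
    funext x
    have e0 : max 0 (1 - |3 * t - (((0 : Fin 4) : ℕ) : ℝ)|) = 0 := by
      rw [show (((0 : Fin 4) : ℕ) : ℝ) = 0 by simp, sub_zero, abs_of_nonneg (by linarith), max_eq_left (by linarith)]
    have e1 : max 0 (1 - |3 * t - (((1 : Fin 4) : ℕ) : ℝ)|) = 0 := by
      rw [show (((1 : Fin 4) : ℕ) : ℝ) = 1 by simp, abs_of_nonneg (by linarith), max_eq_left (by linarith)]
    have e2 : max 0 (1 - |3 * t - (((2 : Fin 4) : ℕ) : ℝ)|) = 1 - (3 * t - 2) := by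
      rw [show (((2 : Fin 4) : ℕ) : ℝ) = 2 by simp, abs_of_nonneg (by linarith), max_eq_right (by linarith [ht.2])]
    have e3 : max 0 (1 - |3 * t - (((3 : Fin 4) : ℕ) : ℝ)|) = 3 * t - 2 := by
      rw [show (((3 : Fin 4) : ℕ) : ℝ) = 3 by simp, abs_of_nonpos (by linarith [ht.2]), max_eq_right (by linarith)]
      ring
    rw [line, Fin.sum_univ_four, e0, e1, e2, e3, zero_smul, zero_smul, zero_add, zero_add]
    rfl

theorem comb_cont {f : Fin 4 → Pt m → ℝ} (hf : ∀ j, ContDiff ℝ ∞ (f j)) {w : Fin 4 → ℝ → ℝ} (hw : ∀ j, Continuous (w j)) (l : ℕ) :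
    Continuous fun z : ℝ × Pt m => iteratedFDeriv ℝ l (fun x => ∑ j, w j z.1 * f j x) z.2 := by
  have h : (fun z : ℝ × Pt m => iteratedFDeriv ℝ l (fun x => ∑ j, w j z.1 * f j x) z.2) =
      fun z => ∑ j : Fin 4, w j z.1 • iteratedFDeriv ℝ l (f j) z.2 := by
    funext z
    have h2 : ∀ j : Fin 4, ContDiff ℝ l (f j) := fun j => (hf j).of_le (by exact_mod_cast le_top)
    have h1 : (fun x => ∑ j, w j z.1 * f j x) = ∑ j : Fin 4, (w j z.1 • f j) := by
      funext x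
      simp only [Finset.sum_apply, Pi.smul_apply, smul_eq_mul]
    have h3 : ∀ j ∈ (Finset.univ : Finset (Fin 4)), ContDiffAt ℝ l (w j z.1 • f j) z.2 := fun j _ => ((h2 j).const_smul (w j z.1)).contDiffAt
    rw [h1, iteratedFDeriv_sum_apply h3]
    refine Finset.sum_congr rfl fun j _ => ?_
    rw [iteratedFDeriv_const_smul_apply (h2 j).contDiffAt]
  rw [h]
  refine continuous_finsetSum _ fun j _ => ?_
  refine ((hw j).comp continuous_fst).smul ?_
  exact ((hf j).continuous_iteratedFDeriv (by exact_mod_cast le_top)).comp continuous_snd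

theorem line_cont {G : Fin 4 → Pt m → Matrix (Fin m) (Fin m) ℝ} (hG : ∀ j a b, ContDiff ℝ ∞ fun x => G j x a b) (l : ℕ) (a b : Fin m) :
    Continuous fun z : ℝ × Pt m => iteratedFDeriv ℝ l (fun x => line G z.1 x a b) z.2 := by
  have h := comb_cont (f := fun j x => G j x a b) (fun j => hG j a b) (w := fun j t => max 0 (1 - |3 * t - ((j : ℕ) : ℝ)|))
    (fun j => by fun_prop) l
  convert h using 4 with z x
  simp only [line, Matrix.sum_apply, Matrix.smul_apply, smul_eq_mul]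

theorem loc_comb {φ : Pt n → Pt m} {G G' : Pt m → Matrix (Fin m) (Fin m) ℝ} (s t : ℝ) (y : Pt n) :
    loc φ (fun x => s • G x + t • G' x) y = s • loc φ G y + t • loc φ G' y := by
  ext a b
  simp only [loc, Matrix.of_apply, Matrix.add_apply, Matrix.smul_apply]
  rw [Matrix.add_mulVec, Matrix.smul_mulVec, Matrix.smul_mulVec, dotProduct_add, dotProduct_smul, dotProduct_smul]

/-- Functions which are zero far from the centre: only the first chart counts. -/
theorem form_model (M : Mfd d m) {i₀ : Fin M.r} (h₀ : ∀ j, i₀ ≤ j) {ψ : Pt m → Pt (d + 3)} {ε ρ : ℝ} (hψ : IsRetract M i₀ ψ ε ρ)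
    (hfar : ∀ i, i ≠ i₀ → ∀ y ∈ M.part i, ε < dist (M.φ i y) (M.φ i₀ (ctr d))) (hfb : ∀ x ∈ M.bdry, ε ≤ dist x (M.φ i₀ (ctr d)))
    {h : Pt (d + 3) → Matrix (Fin (d + 3)) (Fin (d + 3)) ℝ} {G : Pt m → Matrix (Fin m) (Fin m) ℝ}
    (hG : ∀ y ∈ ball (ctr d) ρ, loc (M.φ i₀) G y = h y) {v v' : Pt (d + 3) → ℝ} (hv : ∀ y, y ∉ ball (ctr d) (ρ / 2) → v y = 0)
    {u u' : Pt m → ℝ} (hu : ∀ x, ε ≤ dist x (M.φ i₀ (ctr d)) → u x = 0) (huv : ∀ y ∈ box d (M.bd i₀), ∀ᶠ q in 𝓝 y, u (M.φ i₀ q) = v q)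
    (huv' : ∀ y ∈ box d (M.bd i₀), ∀ᶠ q in 𝓝 y, u' (M.φ i₀ q) = v' q) : M.form G u u' = ∫ y, dens h v v' y := by
  have hρ := hψ.pos'
  -- `v` is zero near the points outside the ball of radius `ρ`
  have hv0 : ∀ y, y ∉ ball (ctr d) ρ → ∀ᶠ q in 𝓝 y, v q = 0 := by
    intro y hy
    rw [mem_ball, not_lt] at hy
    have hd : Continuous fun q => dist q (ctr d) := by fun_prop
    filter_upwards [hd.continuousAt.eventually (lt_mem_nhds (show ρ / 2 < dist y (ctr d) by linarith))] with q hq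
    exact hv q (by rw [mem_ball, not_lt]; exact hq.le)
  -- the boundary terms
  have hbt : ∀ i, ∫ z in M.bdPart i, bdDens (loc (M.φ i) G) (fun q => u (M.φ i q)) (fun q => u' (M.φ i q)) (Fin.cons 0 z) = 0 := by
    intro i
    refine setIntegral_eq_zero_of_forall_eq_zero fun z hz => bdDens_zero _ ?_
    exact hu _ (hfb _ ⟨i, _, hz.2.1, hz.1, by simp, rfl⟩)
  -- the other charts
  have hot : ∀ i, i ≠ i₀ → ∫ y in M.part i, dens (loc (M.φ i) G) (fun q => u (M.φ i q)) (fun q => u' (M.φ i q)) y = 0 := by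
    intro i hi
    refine setIntegral_eq_zero_of_forall_eq_zero fun y hy => dens_zero _ ?_
    have hd : Continuous fun q => dist (M.φ i q) (M.φ i₀ (ctr d)) := (M.smooth i).continuous.dist continuous_const
    filter_upwards [hd.continuousAt.eventually (lt_mem_nhds (hfar i hi y hy))] with q hq
    exact hu _ hq.le
  have hp : M.part i₀ = box d (M.bd i₀) := by
    ext y
    exact ⟨fun h => h.1, fun h => ⟨h, fun j hj => absurd hj (not_lt.2 (h₀ j))⟩⟩
  rw [Mfd.form, Finset.sum_eq_single i₀ (fun i _ hi => by rw [hot i hi, hbt i, add_zero]) (fun h => absurd (Finset.mem_univ _) h), hbt i₀, add_zero, hp,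
    setIntegral_congr_fun (g := dens h v v') (isCompact_box _).measurableSet, setIntegral_eq_integral_of_forall_compl_eq_zero]
  · intro y hy
    exact dens_zero _ (hv0 y fun hb => hy (hψ.left y hb).1)
  · intro y hy
    by_cases hb : y ∈ ball (ctr d) ρ
    · exact dens_congr (by filter_upwards [isOpen_ball.mem_nhds hb] with q hq using hG q hq) (huv y hy) (huv' y hy)
    · have h1 : ∀ᶠ q in 𝓝 y, u (M.φ i₀ q) = 0 := by
        filter_upwards [huv y hy, hv0 y hb] with q h1 h2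
        rw [h1, h2]
      rw [dens_zero _ h1, dens_zero _ (hv0 y hb)]

/-- Test functions which are zero near the centre. -/
def Tests (M : Mfd d m) (X : Bool) (G : Pt m → Matrix (Fin m) (Fin m) ℝ) (k : ℕ) (x₀ : Pt m) (δ : ℝ) : Prop :=
  ∃ u : Fin k → Pt m → ℝ, (∀ i, ContDiff ℝ ∞ (u i)) ∧ (X = true → ∀ i, ∀ x ∈ M.bdry, u i x = 0) ∧ (∀ i, ∀ x ∈ ball x₀ δ, u i x = 0) ∧
    ∀ c : Fin k → ℝ, c ≠ 0 → M.form G (fun x => ∑ i, c i * u i x) (fun x => ∑ i, c i * u i x) < 0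

theorem exists_tests (M : Mfd d m) {i₀ : Fin M.r} (h₀ : ∀ j, i₀ ≤ j) {X : Bool} {k : ℕ} {G : Pt m → Matrix (Fin m) (Fin m) ℝ} (hG : IsMetric M G)
    (hk : M.AtLeast X G k) : ∀ᶠ δ in 𝓝[>] (0 : ℝ), Tests M X G k (M.φ i₀ (ctr d)) δ := by
  obtain ⟨u, hu, hub, huc⟩ := hk
  have h1 : ∀ c : Fin k → ℝ, c ≠ 0 → ∑ i, ∑ j, c i * c j * M.form G (u i) (u j) < 0 := fun c hc => by
    rw [← form_sum M hG hu c]
    exact huc c hc
  have h2 := negDef_stable h1 (l := 𝓝[>] (0 : ℝ))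
    (B := fun δ i j => M.form G (fun x => cut (M.φ i₀ (ctr d)) δ x * u i x) (fun x => cut (M.φ i₀ (ctr d)) δ x * u j x))
    (fun i j => form_cut M h₀ hG (hu i) (hu j))
  filter_upwards [h2, self_mem_nhdsWithin] with δ hδ hδ0
  have hs : ∀ i, ContDiff ℝ ∞ fun x => cut (M.φ i₀ (ctr d)) δ x * u i x := fun i => (cut_contDiff _ _).mul (hu i)
  refine ⟨fun i x => cut (M.φ i₀ (ctr d)) δ x * u i x, hs, fun hX i x hx => ?_, fun i x hx => ?_, fun c hc => ?_⟩
  · simp only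
    rw [hub hX i x hx, mul_zero]
  · simp only
    rw [cut_zero hδ0 (mem_ball.1 hx).le, zero_mul]
  · rw [form_sum M hG hs c]
    exact hδ c hc

/-- The metric can be changed where the test functions are zero. -/
theorem atLeast_of_tests {M : Mfd d m} {X : Bool} {k : ℕ} {G G' : Pt m → Matrix (Fin m) (Fin m) ℝ} {x₀ : Pt m} {ε δ : ℝ}
    (hT : Tests M X G k x₀ δ) (hεδ : ε < δ) (hGG' : ∀ x, ε ≤ dist x x₀ → G' x = G x) : M.AtLeast X G' k := by
  obtain ⟨u, hu, hub, hu0, huc⟩ := hT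
  refine ⟨u, hu, hub, fun c hc => ?_⟩
  have h0 : ∀ x ∈ ball x₀ δ, ∑ i, c i * u i x = 0 := fun x hx => Finset.sum_eq_zero fun i _ => by rw [hu0 i x hx, mul_zero]
  rw [← form_congr M (G := G) isClosed_closedBall isOpen_ball (closedBall_subset_ball hεδ) (fun x hx => (hGG' x ?_).symm) h0 h0]
  · exact huc c hc
  · rw [mem_closedBall, not_le] at hx
    exact hx.le

/-- The broken line. -/
theorem exists_path (M : Mfd d m) {i₀ : Fin M.r} (h₀ : ∀ j, i₀ ≤ j) {X : Bool} {k : ℕ} {G₀ G₁ : Pt m → Matrix (Fin m) (Fin m) ℝ}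
    (hG₀ : IsMetric M G₀) (hG₁ : IsMetric M G₁) (hk₀ : M.AtLeast X G₀ k) (hk₁ : M.AtLeast X G₁ k) :
    ∃ G : Fin 4 → Pt m → Matrix (Fin m) (Fin m) ℝ, G 0 = G₀ ∧ G 3 = G₁ ∧ (∀ j, IsMetric M (G j)) ∧
      ∀ i : Fin 3, ∀ s ∈ Icc (0 : ℝ) 1, M.AtLeast X (fun x => (1 - s) • G i.castSucc x + s • G i.succ x) k := by
  obtain ⟨ε₀, hε₀, hfar, hfb⟩ := near_chart M h₀
  obtain ⟨δ, ⟨hT₀, hT₁⟩, hδ⟩ := (((exists_tests M h₀ hG₀ hk₀).and (exists_tests M h₀ hG₁ hk₁)).and self_mem_nhdsWithin).exists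
  have hδ : 0 < δ := hδ
  obtain ⟨ψ, ε, ρ, hε, hψ⟩ := exists_retract M i₀ (lt_min (half_pos hδ) (half_pos hε₀))
  have hεδ : ε < δ := by linarith [hε.trans (min_le_left _ _)]
  have hεε₀ : ε < ε₀ := by linarith [hε.trans (min_le_right _ _)]
  obtain ⟨h, v, hh, hp, hv, hv0, hvc⟩ := exists_model (ctr d) (half_pos hψ.pos') k
  obtain ⟨G₀', hG₀', he₀, hl₀⟩ := exists_metric M hψ hh hp hG₀
  obtain ⟨G₁', hG₁', he₁, hl₁⟩ := exists_metric M hψ hh hp hG₁
  choose u hu hu0 huv using fun i => exists_fn M hψ (hv i) (hv0 i)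
  refine ⟨![G₀, G₀', G₁', G₁], rfl, rfl, fun j => ?_, fun i s hs => ?_⟩
  · fin_cases j
    exacts [hG₀, hG₀', hG₁', hG₁]
  fin_cases i
  · refine atLeast_of_tests hT₀ hεδ fun x hx => ?_
    change (1 - s) • G₀ x + s • G₀' x = G₀ x
    rw [he₀ x hx, ← add_smul, sub_add_cancel, one_smul]
  · change M.AtLeast X (fun x => (1 - s) • G₀' x + s • G₁' x) k
    have hm : IsMetric M fun x => (1 - s) • G₀' x + s • G₁' x := isMetric_comb hG₀' hG₁' (by linarith [hs.2]) hs.1 (by linarith)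
    refine ⟨u, hu, fun _ i x hx => hu0 i x (hεε₀.le.trans (hfb x hx)), fun c hc => ?_⟩
    rw [form_sum M hm hu c]
    refine lt_of_eq_of_lt (Finset.sum_congr rfl fun i _ => Finset.sum_congr rfl fun j _ => ?_) (hvc c hc)
    rw [form_model M h₀ hψ (fun i hi y hy => hεε₀.trans_le (hfar i hi y hy)) (fun x hx => hεε₀.le.trans (hfb x hx)) (h := h) (v := v i) (v' := v j) ?_
      (hv0 i) (hu0 i) (huv i) (huv j)]
    intro y hy
    rw [loc_comb, hl₀ y hy, hl₁ y hy, ← add_smul, sub_add_cancel, one_smul]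
  · refine atLeast_of_tests hT₁ hεδ fun x hx => ?_
    change (1 - s) • G₁' x + s • G₁ x = G₁ x
    rw [he₁ x hx, ← add_smul, sub_add_cancel, one_smul]

/-- The set of metrics with at least `k` negative eigenvalues is path connected. -/
theorem connected (M : Mfd d m) (X : Bool) (k : ℕ) {G₀ G₁ : Pt m → Matrix (Fin m) (Fin m) ℝ} (hG₀ : IsMetric M G₀) (hG₁ : IsMetric M G₁)
    (hk₀ : M.AtLeast X G₀ k) (hk₁ : M.AtLeast X G₁ k) :
    ∃ γ : ℝ → Pt m → Matrix (Fin m) (Fin m) ℝ, γ 0 = G₀ ∧ γ 1 = G₁ ∧ M.IsCurve γ ∧ ∀ t ∈ Icc (0 : ℝ) 1, M.AtLeast X (γ t) k := by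
  obtain ⟨G, e0, e3, hG, hs⟩ : ∃ G : Fin 4 → Pt m → Matrix (Fin m) (Fin m) ℝ, G 0 = G₀ ∧ G 3 = G₁ ∧ (∀ j, IsMetric M (G j)) ∧
      ∀ i : Fin 3, ∀ s ∈ Icc (0 : ℝ) 1, M.AtLeast X (fun x => (1 - s) • G i.castSucc x + s • G i.succ x) k := by
    rcases Nat.eq_zero_or_pos M.r with h0 | h0
    · have : IsEmpty (Fin M.r) := by rw [h0]; infer_instance
      have hf : ∀ G u v, M.form G u v = 0 := fun G u v => by rw [Mfd.form, Finset.univ_eq_empty, Finset.sum_empty]
      refine ⟨![G₀, G₀, G₁, G₁], rfl, rfl, fun j => ?_, fun i s _ => ?_⟩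
      · fin_cases j
        exacts [hG₀, hG₀, hG₁, hG₁]
      · obtain ⟨u, hu, hub, huc⟩ := hk₀
        refine ⟨u, hu, hub, fun c hc => ?_⟩
        have := huc c hc
        rw [hf] at this ⊢
        exact this
    · exact exists_path M (i₀ := ⟨0, h0⟩) (fun j => Nat.zero_le _) hG₀ hG₁ hk₀ hk₁
  refine ⟨line G, (line_zero G).trans e0, (line_one G).trans e3, ⟨fun t ht => ?_, line_cont fun j => (hG j).smooth⟩, fun t ht => ?_⟩
  · obtain ⟨i, s, hs', e⟩ := line_cases G ht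
    rw [e]
    exact isMetric_comb (hG _) (hG _) (by linarith [hs'.2]) hs'.1 (by linarith)
  · obtain ⟨i, s, hs', e⟩ := line_cases G ht
    rw [e]
    exact hs i s hs'

end Pool.Agent.H13.DR
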