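import Pool.Agent.H13.DR.Defs2

/-!
# DR Loc
-/

set_option autoImplicit false

open scoped ContDiff Matrix Topology
open Set MeasureTheory Metric Filter

noncomputable section

namespace Pool.Agent.H13.DR

variable {n d m : ℕ}

private lemma pd_congr {f f' : Pt n → ℝ} {y : Pt n} (h : f =ᶠ[𝓝 y] f') (a : Fin n) :
    pd a f y = pd a f' y := by
  unfold pd
  rw [h.fderiv_eq]

private lemma entry_congr {g g' : Pt n → Matrix (Fin n) (Fin n) ℝ} {y : Pt n} (hg : g =ᶠ[𝓝 y] g')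
    (j l : Fin n) : (fun q => g q j l) =ᶠ[𝓝 y] fun q => g' q j l := by
  filter_upwards [hg] with q hq
  rw [hq]

private lemma christ_congr {g g' : Pt n → Matrix (Fin n) (Fin n) ℝ} {y : Pt n} (hg : g =ᶠ[𝓝 y] g')
    (k i j : Fin n) : christ g k i j =ᶠ[𝓝 y] christ g' k i j := by
  filter_upwards [hg.eventuallyEq_nhds] with z hz
  unfold christ
  rw [hz.eq_of_nhds]
  congr 1
  refine Finset.sum_congr rfl fun l _ => ?_
  rw [pd_congr (entry_congr hz j l) i, pd_congr (entry_congr hz i l) j,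
    pd_congr (entry_congr hz i j) l]

private lemma scal_congr {g g' : Pt n → Matrix (Fin n) (Fin n) ℝ} {y : Pt n} (hg : g =ᶠ[𝓝 y] g') :
    scal g y = scal g' y := by
  unfold scal
  rw [hg.eq_of_nhds]
  refine Finset.sum_congr rfl fun i _ => Finset.sum_congr rfl fun j _ => ?_
  congr 1
  refine Finset.sum_congr rfl fun k _ => ?_
  rw [pd_congr (christ_congr hg k i j) k, pd_congr (christ_congr hg k i k) j]
  congr 1
  refine Finset.sum_congr rfl fun l _ => ?_
  rw [(christ_congr hg k k l).eq_of_nhds, (christ_congr hg l i j).eq_of_nhds,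
    (christ_congr hg k j l).eq_of_nhds, (christ_congr hg l i k).eq_of_nhds]

private lemma meanCurv_congr {g g' : Pt (d + 3) → Matrix (Fin (d + 3)) (Fin (d + 3)) ℝ}
    {y : Pt (d + 3)} (hg : g =ᶠ[𝓝 y] g') : meanCurv g y = meanCurv g' y := by
  unfold meanCurv
  rw [hg.eq_of_nhds]
  congr 1
  refine Finset.sum_congr rfl fun a _ => pd_congr ?_ a
  filter_upwards [hg] with q hq
  rw [hq]

private lemma loc_congr {φ : Pt n → Pt m} (hφ : Continuous φ)
    {G G' : Pt m → Matrix (Fin m) (Fin m) ℝ} {y : Pt n} (h : G =ᶠ[𝓝 (φ y)] G') :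
    loc φ G =ᶠ[𝓝 y] loc φ G' := by
  filter_upwards [hφ.continuousAt.eventually h] with q hq
  unfold loc
  rw [hq]

theorem dens_congr {g g' : Pt (d + 3) → Matrix (Fin (d + 3)) (Fin (d + 3)) ℝ} {u u' v v' : Pt (d + 3) → ℝ} {y : Pt (d + 3)} (hg : g =ᶠ[𝓝 y] g')
    (hu : u =ᶠ[𝓝 y] u') (hv : v =ᶠ[𝓝 y] v') : dens g u v y = dens g' u' v' y := by
  unfold dens
  rw [hg.eq_of_nhds, scal_congr hg, hu.eq_of_nhds, hv.eq_of_nhds]
  congr 2
  refine Finset.sum_congr rfl fun a _ => Finset.sum_congr rfl fun b _ => ?_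
  rw [pd_congr hu a, pd_congr hv b]

theorem bdDens_congr {g g' : Pt (d + 3) → Matrix (Fin (d + 3)) (Fin (d + 3)) ℝ} {u u' v v' : Pt (d + 3) → ℝ} {y : Pt (d + 3)} (hg : g =ᶠ[𝓝 y] g')
    (hu : u =ᶠ[𝓝 y] u') (hv : v =ᶠ[𝓝 y] v') : bdDens g u v y = bdDens g' u' v' y := by
  unfold bdDens
  rw [hg.eq_of_nhds, meanCurv_congr hg, hu.eq_of_nhds, hv.eq_of_nhds]

theorem dens_zero (g : Pt (d + 3) → Matrix (Fin (d + 3)) (Fin (d + 3)) ℝ) {u v : Pt (d + 3) → ℝ} {y : Pt (d + 3)}
    (hu : ∀ᶠ q in 𝓝 y, u q = 0) : dens g u v y = 0 := by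
  have h0 : u =ᶠ[𝓝 y] fun _ => (0 : ℝ) := hu
  have h1 : ∀ a, pd a u y = 0 := by
    intro a
    rw [pd_congr h0 a]
    unfold pd
    rw [fderiv_fun_const]
    rfl
  unfold dens
  rw [h0.eq_of_nhds]
  simp only [h1, mul_zero, zero_mul, Finset.sum_const_zero, add_zero]

theorem bdDens_zero (g : Pt (d + 3) → Matrix (Fin (d + 3)) (Fin (d + 3)) ℝ) {u v : Pt (d + 3) → ℝ} {y : Pt (d + 3)} (hu : u y = 0) : bdDens g u v y = 0 := by
  unfold bdDens
  rw [hu, mul_zero, zero_mul, zero_mul]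

/-- The form does not change if the metric is changed where `u` and `v` are `0`. -/
theorem form_congr (M : Mfd d m) {G G' : Pt m → Matrix (Fin m) (Fin m) ℝ} {u v : Pt m → ℝ} {C W : Set (Pt m)} (hC : IsClosed C) (hW : IsOpen W)
    (hCW : C ⊆ W) (hG : ∀ x, x ∉ C → G x = G' x) (hu : ∀ x ∈ W, u x = 0) (hv : ∀ x ∈ W, v x = 0) : M.form G u v = M.form G' u v := by
  have hD : ∀ (i : Fin M.r) (y : Pt (d + 3)),
      dens (loc (M.φ i) G) (fun q => u (M.φ i q)) (fun q => v (M.φ i q)) y =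
        dens (loc (M.φ i) G') (fun q => u (M.φ i q)) (fun q => v (M.φ i q)) y ∧
      bdDens (loc (M.φ i) G) (fun q => u (M.φ i q)) (fun q => v (M.φ i q)) y =
        bdDens (loc (M.φ i) G') (fun q => u (M.φ i q)) (fun q => v (M.φ i q)) y := by
    intro i y
    have hc : Continuous (M.φ i) := (M.smooth i).continuous
    by_cases hy : M.φ i y ∈ W
    · have h1 : ∀ᶠ q in 𝓝 y, (fun q => u (M.φ i q)) q = 0 := by
        filter_upwards [hc.continuousAt.eventually (hW.mem_nhds hy)] with q hq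
        exact hu _ hq
      constructor
      · rw [dens_zero _ h1, dens_zero _ h1]
      · rw [bdDens_zero _ (hu _ hy), bdDens_zero _ (hu _ hy)]
    · have hyC : M.φ i y ∉ C := fun h => hy (hCW h)
      have h1 : G =ᶠ[𝓝 (M.φ i y)] G' := by
        filter_upwards [hC.isOpen_compl.mem_nhds hyC] with x hx
        exact hG x hx
      have h2 := loc_congr hc h1
      exact ⟨dens_congr h2 (EventuallyEq.refl _ _) (EventuallyEq.refl _ _),
        bdDens_congr h2 (EventuallyEq.refl _ _) (EventuallyEq.refl _ _)⟩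
  unfold Mfd.form
  refine Finset.sum_congr rfl fun i _ => ?_
  congr 1
  · exact integral_congr_ae (Eventually.of_forall fun y => (hD i y).1)
  · exact integral_congr_ae (Eventually.of_forall fun z => (hD i _).2)

end Pool.Agent.H13.DR
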