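import Pool.Agent.H13.DR.Defs2

/-!
# DR Scal
-/

set_option autoImplicit false

open scoped ContDiff Matrix Topology
open Set MeasureTheory Metric Filter

noncomputable section

namespace Pool.Agent.H13.DR

variable {n d m : ℕ}

/-- partial derivatives of a function of the first coordinate -/
theorem scal_pd_zero {F : ℝ → ℝ} {F' : ℝ} {y : Pt (d + 3)} (hF : HasDerivAt F F' (y 0)) (k : Fin (d + 3)) :
    pd k (fun q => F (q 0)) y = if k = 0 then F' else 0 := by
  have h1 : HasFDerivAt (fun q : Pt (d + 3) => q 0) (ContinuousLinearMap.proj (R := ℝ) (φ := fun _ : Fin (d + 3) => ℝ) 0) y :=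
    (ContinuousLinearMap.proj (R := ℝ) (φ := fun _ : Fin (d + 3) => ℝ) 0).hasFDerivAt
  have h2 := hF.comp_hasFDerivAt y h1
  have h3 : (fun q : Pt (d + 3) => F (q 0)) = F ∘ fun q : Pt (d + 3) => q 0 := rfl
  unfold pd
  rw [h3, h2.fderiv]
  by_cases hk : k = 0
  · subst hk
    simp
  · simp [hk, Ne.symm hk]

/-- the exponents -/
def scalE (d : ℕ) (c : ℝ) (a : Fin (d + 3)) : ℝ := if a = 1 then c else if a = 2 then -c else 0

/-- the factors -/
def scalW (d : ℕ) (ℓ : ℝ) (a : Fin (d + 3)) : ℝ := if a = 0 then 1 else ℓ ^ 2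

/-- the diagonal entries -/
def scalG (d : ℕ) (c ℓ : ℝ) (a : Fin (d + 3)) (x : ℝ) : ℝ := scalW d ℓ a * Real.exp (2 * scalE d c a * x)

theorem scal_val_one : ((1 : Fin (d + 3)) : ℕ) = 1 := Nat.mod_eq_of_lt (show 1 < d + 3 by omega)

theorem scal_val_two : ((2 : Fin (d + 3)) : ℕ) = 2 := Nat.mod_eq_of_lt (show 2 < d + 3 by omega)

theorem scal_one_ne_zero : (1 : Fin (d + 3)) ≠ 0 := by
  intro h
  have h1 := congrArg Fin.val h
  rw [scal_val_one] at h1
  simp at h1

theorem scal_two_ne_zero : (2 : Fin (d + 3)) ≠ 0 := by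
  intro h
  have h1 := congrArg Fin.val h
  rw [scal_val_two] at h1
  simp at h1

theorem scal_two_ne_one : (2 : Fin (d + 3)) ≠ 1 := by
  intro h
  have h1 := congrArg Fin.val h
  rw [scal_val_two, scal_val_one] at h1
  omega

theorem scalE_zero (c : ℝ) : scalE d c 0 = 0 := by
  unfold scalE
  rw [if_neg (Ne.symm scal_one_ne_zero), if_neg (Ne.symm scal_two_ne_zero)]

theorem scalG_zero (c ℓ x : ℝ) : scalG d c ℓ 0 x = 1 := by
  unfold scalG
  rw [scalE_zero]
  simp [scalW]

theorem scal_model_eq (c ℓ : ℝ) (y : Pt (d + 3)) : model d c ℓ y = Matrix.diagonal fun a => scalG d c ℓ a (y 0) := by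
  unfold model
  congr 1
  funext a
  unfold scalG scalE scalW
  by_cases h0 : a = 0
  · subst h0
    rw [if_pos rfl, if_pos rfl, if_neg (Ne.symm scal_one_ne_zero), if_neg (Ne.symm scal_two_ne_zero)]
    simp
  · rw [if_neg h0, if_neg h0]
    by_cases h1 : a = 1
    · rw [if_pos h1, if_pos h1]
    · rw [if_neg h1, if_neg h1]
      by_cases h2 : a = 2
      · rw [if_pos h2, if_pos h2]
        congr 2
        ring
      · rw [if_neg h2, if_neg h2]
        simp

theorem scalG_ne_zero (c : ℝ) {ℓ : ℝ} (hℓ : ℓ ≠ 0) (a : Fin (d + 3)) (x : ℝ) : scalG d c ℓ a x ≠ 0 := by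
  unfold scalG scalW
  split_ifs
  · exact mul_ne_zero one_ne_zero (Real.exp_pos _).ne'
  · exact mul_ne_zero (pow_ne_zero 2 hℓ) (Real.exp_pos _).ne'

theorem scal_inv (c : ℝ) {ℓ : ℝ} (hℓ : ℓ ≠ 0) (y : Pt (d + 3)) :
    (model d c ℓ y)⁻¹ = Matrix.diagonal fun a => (scalG d c ℓ a (y 0))⁻¹ := by
  apply Matrix.inv_eq_right_inv
  rw [scal_model_eq, Matrix.diagonal_mul_diagonal, ← Matrix.diagonal_one]
  congr 1
  funext a
  exact mul_inv_cancel₀ (scalG_ne_zero c hℓ a _)

theorem scalG_hasDerivAt (c ℓ : ℝ) (a : Fin (d + 3)) (x : ℝ) :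
    HasDerivAt (scalG d c ℓ a) (2 * scalE d c a * scalG d c ℓ a x) x := by
  unfold scalG
  have h1 : HasDerivAt (fun x : ℝ => 2 * scalE d c a * x) (2 * scalE d c a) x := by
    simpa using (hasDerivAt_id x).const_mul (2 * scalE d c a)
  exact ((h1.exp).const_mul (scalW d ℓ a)).congr_deriv (by ring)

theorem scal_pd_g (c ℓ : ℝ) (y : Pt (d + 3)) (k i j : Fin (d + 3)) :
    pd k (fun q => model d c ℓ q i j) y = if k = 0 ∧ i = j then 2 * scalE d c i * scalG d c ℓ i (y 0) else 0 := by
  by_cases hij : i = j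
  · subst hij
    have h0 : (fun q : Pt (d + 3) => model d c ℓ q i i) = fun q => scalG d c ℓ i (q 0) := by
      funext q
      rw [scal_model_eq, Matrix.diagonal_apply_eq]
    rw [h0, scal_pd_zero (scalG_hasDerivAt c ℓ i (y 0))]
    simp
  · have h0 : (fun q : Pt (d + 3) => model d c ℓ q i j) = fun q => (fun _ : ℝ => (0 : ℝ)) (q 0) := by
      funext q
      rw [scal_model_eq, Matrix.diagonal_apply_ne _ hij]
    rw [h0, scal_pd_zero (hasDerivAt_const (y 0) (0 : ℝ))]
    simp [hij]

/-- table of the Christoffel symbols -/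
def scalChr (d : ℕ) (c ℓ : ℝ) (k i j : Fin (d + 3)) (x : ℝ) : ℝ :=
  (if i = 0 ∧ j = k then scalE d c k else 0) + (if j = 0 ∧ i = k then scalE d c k else 0) -
    (if k = 0 ∧ i = j then scalE d c i * scalG d c ℓ i x else 0)

theorem scal_christ (c : ℝ) {ℓ : ℝ} (hℓ : ℓ ≠ 0) (k i j : Fin (d + 3)) (y : Pt (d + 3)) :
    christ (model d c ℓ) k i j y = scalChr d c ℓ k i j (y 0) := by
  unfold christ
  simp only [scal_pd_g, scal_inv c hℓ, Matrix.diagonal_apply]
  rw [Finset.sum_eq_single k]
  · rw [if_pos rfl]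
    unfold scalChr
    have hk := scalG_ne_zero c hℓ k (y 0)
    have e1 : (scalG d c ℓ k (y 0))⁻¹ * (if i = 0 ∧ j = k then 2 * scalE d c j * scalG d c ℓ j (y 0) else 0)
        = 2 * (if i = 0 ∧ j = k then scalE d c k else 0) := by
      split_ifs with h
      · rw [h.2]; field_simp
      · simp
    have e2 : (scalG d c ℓ k (y 0))⁻¹ * (if j = 0 ∧ i = k then 2 * scalE d c i * scalG d c ℓ i (y 0) else 0)
        = 2 * (if j = 0 ∧ i = k then scalE d c k else 0) := by
      split_ifs with h
      · rw [h.2]; field_simp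
      · simp
    have e3 : (scalG d c ℓ k (y 0))⁻¹ * (if k = 0 ∧ i = j then 2 * scalE d c i * scalG d c ℓ i (y 0) else 0)
        = 2 * (if k = 0 ∧ i = j then scalE d c i * scalG d c ℓ i (y 0) else 0) := by
      split_ifs with h
      · rw [h.1, scalG_zero]; ring
      · simp
    linear_combination (1 / 2) * e1 + (1 / 2) * e2 - (1 / 2) * e3
  · intro l _ hl
    rw [if_neg (Ne.symm hl)]
    ring
  · intro h
    exact absurd (Finset.mem_univ k) h

theorem scal_pd_christ (c : ℝ) {ℓ : ℝ} (hℓ : ℓ ≠ 0) (l k i j : Fin (d + 3)) (y : Pt (d + 3)) :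
    pd l (christ (model d c ℓ) k i j) y =
      if l = 0 then (if k = 0 ∧ i = j then -(2 * scalE d c i ^ 2 * scalG d c ℓ i (y 0)) else 0) else 0 := by
  have h1 : christ (model d c ℓ) k i j = fun q => scalChr d c ℓ k i j (q 0) := by
    funext q
    exact scal_christ c hℓ k i j q
  rw [h1]
  apply scal_pd_zero
  unfold scalChr
  by_cases h : k = 0 ∧ i = j
  · simp only [if_pos h]
    have h2 := (scalG_hasDerivAt c ℓ i (y 0)).const_mul (scalE d c i)
    exact (h2.const_sub _).congr_deriv (by ring)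
  · simp only [if_neg h]
    exact hasDerivAt_const _ _

theorem scal_sumE (c : ℝ) : ∑ a : Fin (d + 3), scalE d c a = 0 := by
  unfold scalE
  have h1 : ∀ a : Fin (d + 3), (if a = 1 then c else if a = 2 then -c else 0) = (if a = 1 then c else 0) + (if a = 2 then -c else 0) := by
    intro a
    by_cases h1 : a = 1
    · subst h1
      rw [if_pos rfl, if_pos rfl, if_neg (Ne.symm scal_two_ne_one)]
      ring
    · rw [if_neg h1, if_neg h1]; ring
  simp only [h1, Finset.sum_add_distrib, Finset.sum_ite_eq', Finset.mem_univ, if_true]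
  ring

theorem scal_sumE2 (c : ℝ) : ∑ a : Fin (d + 3), scalE d c a ^ 2 = 2 * c ^ 2 := by
  unfold scalE
  have h1 : ∀ a : Fin (d + 3), (if a = 1 then c else if a = 2 then -c else 0) ^ 2 = (if a = 1 then c ^ 2 else 0) + (if a = 2 then c ^ 2 else 0) := by
    intro a
    by_cases h1 : a = 1
    · subst h1
      rw [if_pos rfl, if_pos rfl, if_neg (Ne.symm scal_two_ne_one)]
      ring
    · rw [if_neg h1, if_neg h1]
      by_cases h2 : a = 2
      · rw [if_pos h2, if_pos h2]; ring
      · rw [if_neg h2, if_neg h2]; ring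
  simp only [h1, Finset.sum_add_distrib, Finset.sum_ite_eq', Finset.mem_univ, if_true]
  ring

theorem scal_model (c : ℝ) {ℓ : ℝ} (hℓ : ℓ ≠ 0) (y : Pt (d + 3)) : scal (model d c ℓ) y = -(2 * c ^ 2) := by
  unfold scal
  simp only [scal_pd_christ c hℓ, scal_christ c hℓ, scal_inv c hℓ, Matrix.diagonal_apply]
  set G : Fin (d + 3) → ℝ := fun a => scalG d c ℓ a (y 0) with hG
  set e : Fin (d + 3) → ℝ := scalE d c with he
  have hG0 : G 0 = 1 := scalG_zero c ℓ (y 0)
  have he0 : e 0 = 0 := scalE_zero c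
  have hGn : ∀ a, G a ≠ 0 := fun a => scalG_ne_zero c hℓ a (y 0)
  have hS : ∑ a, e a = 0 := scal_sumE c
  have hS2 : ∑ a, e a ^ 2 = 2 * c ^ 2 := scal_sumE2 c
  have hdiag : ∀ i : Fin (d + 3), ∑ j, (if i = j then (G i)⁻¹ else 0) * ∑ k, ((if k = 0 then (if k = 0 ∧ i = j then -(2 * e i ^ 2 * G i) else 0) else 0) -
      (if j = 0 then (if k = 0 ∧ i = k then -(2 * e i ^ 2 * G i) else 0) else 0) +
      ∑ l, (scalChr d c ℓ k k l (y 0) * scalChr d c ℓ l i j (y 0) - scalChr d c ℓ k j l (y 0) * scalChr d c ℓ l i k (y 0))) =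
      (G i)⁻¹ * ∑ k, ((if k = 0 then (if k = 0 ∧ i = i then -(2 * e i ^ 2 * G i) else 0) else 0) -
      (if i = 0 then (if k = 0 ∧ i = k then -(2 * e i ^ 2 * G i) else 0) else 0) +
      ∑ l, (scalChr d c ℓ k k l (y 0) * scalChr d c ℓ l i i (y 0) - scalChr d c ℓ k i l (y 0) * scalChr d c ℓ l i k (y 0))) := by
    intro i
    rw [Finset.sum_eq_single i]
    · rw [if_pos rfl]
    · intro j _ hj
      rw [if_neg (Ne.symm hj), zero_mul]
    · intro h
      exact absurd (Finset.mem_univ i) h
  have hmain : ∀ i : Fin (d + 3), ∑ k, ((if k = 0 then (if k = 0 ∧ i = i then -(2 * e i ^ 2 * G i) else 0) else 0) -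
      (if i = 0 then (if k = 0 ∧ i = k then -(2 * e i ^ 2 * G i) else 0) else 0) +
      ∑ l, (scalChr d c ℓ k k l (y 0) * scalChr d c ℓ l i i (y 0) - scalChr d c ℓ k i l (y 0) * scalChr d c ℓ l i k (y 0))) =
      if i = 0 then -(2 * c ^ 2) else 0 := by
    intro i
    have hT1 : ∑ k, ∑ l, scalChr d c ℓ k k l (y 0) * scalChr d c ℓ l i i (y 0) = 0 := by
      rw [Finset.sum_comm]
      apply Finset.sum_eq_zero
      intro l _
      rw [← Finset.sum_mul]
      have h1 : ∑ k, scalChr d c ℓ k k l (y 0) = 0 := by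
        have h2 : ∀ k, scalChr d c ℓ k k l (y 0) = (if l = 0 then e k else 0) := by
          intro k
          show (if k = 0 ∧ l = k then e k else 0) + (if l = 0 ∧ k = k then e k else 0) -
            (if k = 0 ∧ k = l then e k * G k else 0) = _
          by_cases hk : k = 0
          · subst hk
            simp only [he0]
            simp
          · simp [hk]
        simp only [h2]
        split_ifs with hl
        · exact hS
        · simp
      rw [h1, zero_mul]
    have hT2 : ∑ k, ∑ l, scalChr d c ℓ k i l (y 0) * scalChr d c ℓ l i k (y 0) = if i = 0 then 2 * c ^ 2 else -(2 * e i ^ 2 * G i) := by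
      by_cases hi : i = 0
      · subst hi
        have h2 : ∀ k l, scalChr d c ℓ k 0 l (y 0) = (if l = k then e k else 0) := by
          intro k l
          show (if (0 : Fin (d + 3)) = 0 ∧ l = k then e k else 0) + (if l = 0 ∧ 0 = k then e k else 0) -
            (if k = 0 ∧ 0 = l then e 0 * G 0 else 0) = _
          rw [he0]
          by_cases hk : k = 0
          · subst hk
            simp only [he0]
            simp
          · simp [Ne.symm hk]
        rw [if_pos rfl, ← hS2]
        apply Finset.sum_congr rfl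
        intro k _
        rw [Finset.sum_eq_single k]
        · rw [h2 k k, if_pos rfl]; ring
        · intro l _ hl
          rw [h2 k l, if_neg hl, zero_mul]
        · intro h
          exact absurd (Finset.mem_univ k) h
      · have h2 : ∀ k l, scalChr d c ℓ k i l (y 0) * scalChr d c ℓ l i k (y 0) =
            (if l = 0 then (if k = i then -(e i ^ 2 * G i) else 0) else 0) + (if l = i then (if k = 0 then -(e i ^ 2 * G i) else 0) else 0) := by
          intro k l
          show ((if i = 0 ∧ l = k then e k else 0) + (if l = 0 ∧ i = k then e k else 0) -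
            (if k = 0 ∧ i = l then e i * G i else 0)) * ((if i = 0 ∧ k = l then e l else 0) + (if k = 0 ∧ i = l then e l else 0) -
            (if l = 0 ∧ i = k then e i * G i else 0)) = _
          by_cases hk : k = 0
          · subst hk
            by_cases hl : l = i
            · subst hl
              simp [hi, Ne.symm hi]
              ring
            · simp [hi, Ne.symm hi, hl, Ne.symm hl]
          · by_cases hki : k = i
            · subst hki
              by_cases hl : l = 0
              · subst hl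
                simp [hi]
                ring
              · simp [hi, hl]
            · simp [hk, hki, Ne.symm hki, hi]
        rw [if_neg hi]
        simp only [h2, Finset.sum_add_distrib, Finset.sum_ite_eq', Finset.mem_univ, if_true]
        ring
    simp only [Finset.sum_add_distrib, Finset.sum_sub_distrib]
    rw [hT1, hT2]
    by_cases hi : i = 0
    · subst hi
      simp [he0]
    · simp [hi]
  have hfin : ∀ i : Fin (d + 3), ∑ j, (if i = j then (G i)⁻¹ else 0) * ∑ k, ((if k = 0 then (if k = 0 ∧ i = j then -(2 * e i ^ 2 * G i) else 0) else 0) -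
      (if j = 0 then (if k = 0 ∧ i = k then -(2 * e i ^ 2 * G i) else 0) else 0) +
      ∑ l, (scalChr d c ℓ k k l (y 0) * scalChr d c ℓ l i j (y 0) - scalChr d c ℓ k j l (y 0) * scalChr d c ℓ l i k (y 0))) =
      if i = 0 then -(2 * c ^ 2) else 0 := by
    intro i
    rw [hdiag i, hmain i]
    split_ifs with h
    · rw [h, hG0]; simp
    · simp
  calc _ = ∑ i : Fin (d + 3), (if i = 0 then -(2 * c ^ 2) else 0) := Finset.sum_congr rfl fun i _ => hfin i
    _ = -(2 * c ^ 2) := by simp

end Pool.Agent.H13.DR
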